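import Pool.Agent.H30.AS.Defs

/-!
# The vector `sig m` is a changemaker
-/

namespace Pool.Agent.H30.AS

open Finset

theorem small_sums : ∀ r ≤ 12, ∃ A : Finset (Fin 5), ∑ k ∈ A, (![1, 2, 2, 3, 4] : Fin 5 → ℕ) k = r := by
  decide

theorem sig_changemaker (m : ℕ) : IsChangemaker (sig m) := by
  intro n hn
  rw [Fintype.sum_sum_type, Fin.sum_univ_five] at hn
  simp only [sig, Sum.elim_inl, Sum.elim_inr, Finset.sum_const, Finset.card_univ,
    Fintype.card_fin, smul_eq_mul, Matrix.cons_val] at hn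
  obtain ⟨a, ha, r, hr, hnr⟩ : ∃ a ≤ m, ∃ r ≤ 12, n = 5 * a + r := by
    by_cases h : n ≤ 5 * m
    · exact ⟨n / 5, by omega, n % 5, by omega, by omega⟩
    · exact ⟨m, le_rfl, n - 5 * m, by omega, by omega⟩
  obtain ⟨A, hA⟩ := small_sums r hr
  obtain ⟨C, -, hC⟩ := Finset.exists_subset_card_eq
    (s := (Finset.univ : Finset (Fin m))) (n := a) (by simpa using ha)
  refine ⟨A.disjSum C, ?_⟩
  rw [Finset.sum_disjSum]
  simp only [sig, Sum.elim_inl, Sum.elim_inr, Finset.sum_const, hC, smul_eq_mul]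
  rw [hA]
  omega

end Pool.Agent.H30.AS
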