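import Mathlib

/-!
# Definitions for the alternating surgery problem

Link diagrams in Morse position, their isotopies, band moves, checkerboard (Tait) graphs, and the
lattices of Greene, Gibbons and McCoy.
-/

namespace Pool.Agent.H30.AS

/-- Elementary pieces of a tangle diagram in Morse position, read upwards.  Strands are numbered
from left to right, starting at `0`.  `cup i` creates two new neighbouring strands, at the
positions `i` and `i + 1`; `cap i` joins the strands at the positions `i` and `i + 1`;
`cross b i` is a crossing of the strands at the positions `i` and `i + 1`, in which the strand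
going from bottom left to top right is the upper one if `b = true`, and the lower one if
`b = false`. -/
inductive Piece : Type
  | cup (i : ℕ) : Piece
  | cap (i : ℕ) : Piece
  | cross (b : Bool) (i : ℕ) : Piece

/-- The position of a piece. -/
def Piece.pos : Piece → ℕ
  | .cup i => i
  | .cap i => i
  | .cross _ i => i

/-- The number of strands entering a piece from below. -/
def Piece.ins : Piece → ℕ
  | .cup _ => 0
  | .cap _ => 2
  | .cross _ _ => 2

/-- The number of strands leaving a piece at the top. -/
def Piece.outs : Piece → ℕ
  | .cup _ => 2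
  | .cap _ => 0
  | .cross _ _ => 2

/-- Moving a piece `k` positions to the right. -/
def Piece.shift (k : ℕ) : Piece → Piece
  | .cup i => .cup (i + k)
  | .cap i => .cap (i + k)
  | .cross b i => .cross b (i + k)

/-- The number of strands above the pieces of a word, if there are `n` strands below it; `none` if
the word makes no sense there. -/
def strands : List Piece → ℕ → Option ℕ
  | [], n => some n
  | .cup i :: w, n => if i ≤ n then strands w (n + 2) else none
  | .cap i :: w, n => if i + 2 ≤ n then strands w (n - 2) else none
  | .cross _ i :: w, n => if i + 2 ≤ n then strands w n else none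

/-- A word is a link diagram if it starts and ends with no strands. -/
def IsLinkDiagram (w : List Piece) : Prop := strands w 0 = some 0

/-- The elementary isotopies: Reidemeister moves I, II, III, straightening of a strand, moving a
strand past a maximum or minimum, and exchanging the heights of two pieces that lie side by
side. -/
inductive Move : List Piece → List Piece → Prop
  | r1cup (b : Bool) (i : ℕ) : Move [.cup i, .cross b i] [.cup i]
  | r1cap (b : Bool) (i : ℕ) : Move [.cross b i, .cap i] [.cap i]
  | r2 (b : Bool) (i : ℕ) : Move [.cross b i, .cross (!b) i] []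
  | r3 (a b c : Bool) (i : ℕ) (h : a = b ∨ b = c) :
      Move [.cross a i, .cross b (i + 1), .cross c i]
        [.cross c (i + 1), .cross b i, .cross a (i + 1)]
  | zig (i : ℕ) : Move [.cup i, .cap (i + 1)] []
  | zag (i : ℕ) : Move [.cup (i + 1), .cap i] []
  | slideCup (b : Bool) (i : ℕ) :
      Move [.cup i, .cross b (i + 1)] [.cup (i + 1), .cross (!b) i]
  | slideCap (b : Bool) (i : ℕ) :
      Move [.cross b (i + 1), .cap i] [.cross (!b) i, .cap (i + 1)]
  | far (x y : Piece) (h : x.pos ≤ y.pos) : Move [x, y.shift x.outs] [y.shift x.ins, x]

/-- Isotopy of words: the equivalence relation generated by applying elementary isotopies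
anywhere in a word. -/
def Isotopic : List Piece → List Piece → Prop :=
  Relation.EqvGen fun w w' => ∃ a b u v, Move u v ∧ w = a ++ u ++ b ∧ w' = a ++ v ++ b

/-- The diagram of the unknot without crossings. -/
def unknot : List Piece := [.cup 0, .cap 0]

/-- `w'` arises from the link diagram `w` by a band move: two neighbouring vertical strands of `w`
are cut and reconnected by a cap and a cup. -/
def BandMove (w w' : List Piece) : Prop :=
  ∃ a b i, w = a ++ b ∧ w' = a ++ [.cap i, .cup i] ++ b ∧ IsLinkDiagram w ∧ IsLinkDiagram w'

/-- The crossings are of the type prescribed by the checkerboard colouring; for a connected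
diagram this says that it is alternating. -/
def IsAlternating (w : List Piece) : Prop := ∀ b i, Piece.cross b i ∈ w → (b = true ↔ Odd i)

/-- One step of the computation of the checkerboard graph.  The state consists of the labels of
the gaps between the strands (the gap number `0` is the one left of all strands; the gaps with
even numbers are shaded; unshaded gaps have the label `0`), the next unused label, and the edges
found so far.  A `cap i` with `i` even identifies the shaded regions on its two sides.
A crossing gives an edge between the two shaded regions that meet in it. -/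
def taitStep : List ℕ × ℕ × List (ℕ × ℕ) → Piece → List ℕ × ℕ × List (ℕ × ℕ)
  | (R, n, E), .cup i =>
      if i % 2 = 1 then (R.take (i + 1) ++ n :: R.drop i, n + 1, E)
      else (R.take (i + 1) ++ 0 :: R.drop i, n, E)
  | (R, n, E), .cap i =>
      if i % 2 = 1 then (R.take (i + 1) ++ R.drop (i + 3), n, E)
      else
        let f : ℕ → ℕ := fun r => if r = R.getD (i + 2) 0 then R.getD i 0 else r
        ((R.take (i + 1) ++ R.drop (i + 3)).map f, n, E.map fun e => (f e.1, f e.2))
  | (R, n, E), .cross _ i =>
      if i % 2 = 1 then (R.set (i + 1) n, n + 1, E ++ [(R.getD (i + 1) 0, n)])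
      else (R, n, E ++ [(R.getD i 0, R.getD (i + 2) 0)])

/-- The checkerboard graph (Tait graph) of a link diagram: its vertices are the shaded regions and
its edges are the crossings. -/
def tait (w : List Piece) : List (ℕ × ℕ) := (w.foldl taitStep ([0], 1, [])).2.2

/-- The incidence vector of an edge. -/
def inc (e : ℕ × ℕ) (u : ℕ) : ℤ := (if e.1 = u then 1 else 0) - (if e.2 = u then 1 else 0)

/-- The Laplace matrix of a multigraph, given by its list of edges. -/
def lap (E : List (ℕ × ℕ)) (u v : ℕ) : ℤ := (E.map fun e => inc e u * inc e v).sum

/-- `L` is isometric to the graph lattice of the multigraph `E`: `L` is generated by vectors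
indexed by the vertices whose inner products are the entries of the Laplace matrix. -/
def IsGraphLattice {ι : Type*} [Fintype ι] (E : List (ℕ × ℕ)) (L : Set (ι → ℤ)) : Prop :=
  ∃ B : ℕ → ι → ℤ, (∀ u v, ∑ k, B u k * B v k = lap E u v) ∧
    (AddSubgroup.closure (Set.range B) : Set (ι → ℤ)) = L

/-- Greene's changemaker condition: every integer between `0` and the sum of the entries is the
sum of some of the entries. -/
def IsChangemaker {ι : Type*} [Fintype ι] (s : ι → ℕ) : Prop :=
  ∀ n ≤ ∑ k, s k, ∃ A : Finset ι, ∑ k ∈ A, s k = n

/-- The orthogonal complement of the integer vector `s`. -/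
def perp {ι : Type*} [Fintype ι] (s : ι → ℕ) : Set (ι → ℤ) := {x | ∑ k, x k * (s k : ℤ) = 0}

/-- The vector `w_{k+1} = - e_{c k} + e_{c k + 1} + ⋯ + e_{c (k + 1)}`. -/
def chainVec (c : ℕ → ℕ) (k j : ℕ) : ℤ :=
  if j = c k then -1 else if c k < j ∧ j ≤ c (k + 1) then 1 else 0

/-- The lattices of non-integer slopes: the orthogonal complement of the vectors
`w_0 = e_0 + ∑ s k f k` and `w_1, …, w_l` in the standard lattice with the orthonormal basis
`e_0, …, e_r`, `f k`, where `r = c l`.  It belongs to the slopes `[a_0, a_1, …, a_l]` (continued
fraction with minus signs) with `a_0 = 1 + |s|²` and `a_i = c i - c (i - 1) + 1`; for `l = 1`,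
`c 1 = 1` this is the half integer slope `a_0 - 1 / 2`. -/
def slopeLattice (l : ℕ) (c : ℕ → ℕ) {t : ℕ} (s : Fin t → ℕ) :
    Set (Fin (c l + 1) ⊕ Fin t → ℤ) :=
  {x | x (Sum.inl 0) + ∑ k, x (Sum.inr k) * (s k : ℤ) = 0 ∧
    ∀ k < l, ∑ j : Fin (c l + 1), x (Sum.inl j) * chainVec c k j = 0}

/-- The vector `(1, s)`. -/
def oneCons {t : ℕ} (s : Fin t → ℕ) : Fin 1 ⊕ Fin t → ℕ := Sum.elim (fun _ => 1) s

/-- The torsion sequence `V i` of `s`: for `2 i ≤ |s|²` the minimum of `(|c|² - N) / 8` over the
characteristic (all entries odd) vectors `c` of the standard lattice of rank `N` with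
`c · s = |s|² - 2 i`, and `0` for `2 i > |s|²`. -/
noncomputable def torsion {ι : Type*} [Fintype ι] (s : ι → ℕ) (i : ℕ) : ℕ :=
  if 2 * i ≤ ∑ k, s k ^ 2 then
    sInf {v : ℕ | ∃ c : ι → ℤ, (∀ k, Odd (c k)) ∧
      ∑ k, c k * (s k : ℤ) = ∑ k, (s k : ℤ) ^ 2 - 2 * i ∧
      ∑ k, c k ^ 2 = 8 * (v : ℤ) + Fintype.card ι}
  else 0

/-- The vector `(1, 2, 2, 3, 4, 5, …, 5)` with `m` entries `5`. -/
def sig (m : ℕ) : Fin 5 ⊕ Fin m → ℕ := Sum.elim ![1, 2, 2, 3, 4] (fun _ => 5)

/-- The link diagram with `8 + m` crossings; for `m = 1` it is the standard diagram of the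
alternating knot `9_32`. -/
def word (m : ℕ) : List Piece :=
  [.cup 0, .cup 1, .cross false 0, .cup 3, .cross false 2, .cross false 0, .cross true 1,
    .cross false 2, .cross true 3, .cross true 3, .cross false 4] ++
    List.replicate m (.cross true 3) ++ [.cap 2, .cap 1, .cap 0]

end Pool.Agent.H30.AS
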