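import Pool.Agent.H30.AS.Defs

/-!
# The Tait graph of `word m` has the lattice `perp (sig m)`
-/

namespace Pool.Agent.H30.AS

open Finset

/-- The edges below the twist region. -/
def edges0 : List (ℕ × ℕ) := [(0, 1), (1, 2), (0, 1), (1, 3), (3, 2), (2, 4), (4, 5), (5, 0)]

/-- The edges of the twist region. -/
def chain (m : ℕ) : List (ℕ × ℕ) := (List.range m).map fun j => (5 + j, 6 + j)

/-- The edges of the twist region in the final graph. -/
def che (m j : ℕ) : ℕ × ℕ := (5 + j, if j + 1 = m then 3 else 6 + j)

theorem fold_rep (m : ℕ) :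
    (List.replicate m (Piece.cross true 3)).foldl taitStep ([0, 0, 3, 0, 5, 0, 0], 6, edges0) =
      ([0, 0, 3, 0, 5 + m, 0, 0], 6 + m, edges0 ++ chain m) := by
  induction m with
  | zero => simp [chain]
  | succ m ih =>
    rw [List.replicate_succ', List.foldl_append, ih]
    simp only [List.foldl_cons, List.foldl_nil, taitStep]
    norm_num [chain, List.range_succ]
    omega

theorem tait_word (m : ℕ) (hm : 1 ≤ m) :
    tait (word m) = edges0 ++ (List.range m).map (che m) := by
  have h1 : tait (word m) = (([.cap 2, .cap 1, .cap 0] : List Piece).foldl taitStep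
      ([0, 0, 3, 0, 5 + m, 0, 0], 6 + m, edges0 ++ chain m)).2.2 := by
    rw [← fold_rep]
    unfold tait word
    rw [List.foldl_append, List.foldl_append]
    rfl
  rw [h1]
  have h0 : ∀ r : ℕ, (if r = 0 then 0 else r) = r := by
    intro r
    split_ifs with h
    · exact h.symm
    · rfl
  have e0 : ¬ (0 = 5 + m) := by omega
  have e1 : ¬ (1 = 5 + m) := by omega
  have e2 : ¬ (2 = 5 + m) := by omega
  have e3 : ¬ (3 = 5 + m) := by omega
  have e4 : ¬ (4 = 5 + m) := by omega
  have e5 : ¬ (5 = 5 + m) := by omega
  simp only [List.foldl_cons, List.foldl_nil, taitStep]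
  norm_num
  simp only [if_neg e0, h0]
  congr 1
  · simp only [edges0, List.map_cons, List.map_nil, Function.comp, if_neg e0, if_neg e1,
      if_neg e2, if_neg e3, if_neg e4, if_neg e5]
  · unfold chain
    rw [List.map_map]
    refine List.map_congr_left fun j hj => ?_
    have hj' : j < m := List.mem_range.1 hj
    have e6 : ¬ (5 + j = 5 + m) := by omega
    simp only [Function.comp, che, if_neg e6]
    have e7 : (6 + j = 5 + m) ↔ (j + 1 = m) := by omega
    simp only [e7]

theorem lap_append (E E' : List (ℕ × ℕ)) (u v : ℕ) : lap (E ++ E') u v = lap E u v + lap E' u v := by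
  simp [lap]

theorem sum_map_range (f : ℕ → ℤ) (m : ℕ) :
    ((List.range m).map f).sum = ∑ j ∈ Finset.range m, f j := by
  induction m with
  | zero => simp
  | succ m ih =>
    rw [List.range_succ, List.map_append, List.sum_append, ih, Finset.sum_range_succ]
    simp

theorem lap_chain (m u v : ℕ) :
    lap ((List.range m).map (che m)) u v = ∑ j : Fin m, inc (che m j) u * inc (che m j) v := by
  unfold lap
  rw [List.map_map, sum_map_range,
    Fin.sum_univ_eq_sum_range (fun j => inc (che m j) u * inc (che m j) v) m]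
  rfl

/-- The small coordinates of the vertex vectors. -/
def vt (u : ℕ) : Fin 5 → ℤ :=
  if u = 0 then ![1, 0, 0, 1, -1]
  else if u = 1 then ![-1, 1, 1, -1, 0]
  else if u = 2 then ![-1, 0, -1, 1, 0]
  else if u = 3 then ![1, 0, 0, 0, 1]
  else if u = 4 then ![0, -1, 1, 0, 0]
  else if u = 5 then ![0, 0, -1, -1, 0]
  else 0

theorem vt_big {u : ℕ} (hu : 6 ≤ u) : vt u = 0 := by
  unfold vt
  rw [if_neg (by omega), if_neg (by omega), if_neg (by omega), if_neg (by omega),
    if_neg (by omega), if_neg (by omega)]

theorem inc_big {e : ℕ × ℕ} {u : ℕ} (h1 : e.1 ≠ u) (h2 : e.2 ≠ u) : inc e u = 0 := by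
  simp [inc, h1, h2]

theorem lap_big {u : ℕ} (hu : 6 ≤ u) (v : ℕ) : lap edges0 u v = 0 := by
  have h : ∀ a b, a < 6 → b < 6 → inc (a, b) u = 0 := fun a b ha hb =>
    inc_big (by simp; omega) (by simp; omega)
  simp [lap, edges0, h]

theorem lap_comm (E : List (ℕ × ℕ)) (u v : ℕ) : lap E u v = lap E v u := by
  unfold lap
  congr 1
  refine List.map_congr_left fun e _ => mul_comm _ _

theorem gram0 (u v : ℕ) : ∑ k, vt u k * vt v k = lap edges0 u v := by
  by_cases hu : u < 6
  · by_cases hv : v < 6
    · interval_cases u <;> interval_cases v <;> decide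
    · rw [vt_big (u := v) (by omega), lap_comm, lap_big (by omega)]
      simp
  · rw [vt_big (u := u) (by omega), lap_big (by omega)]
    simp

/-- The vertex vectors. -/
def vv (m : ℕ) (u : ℕ) : Fin 5 ⊕ Fin m → ℤ := Sum.elim (vt u) fun j => inc (che m j) u

theorem gram (m : ℕ) (hm : 1 ≤ m) (u v : ℕ) :
    ∑ k, vv m u k * vv m v k = lap (tait (word m)) u v := by
  rw [tait_word m hm, lap_append, lap_chain, Fintype.sum_sum_type]
  simp only [vv, Sum.elim_inl, Sum.elim_inr]
  rw [gram0]

/-- Telescoping along the twist region. -/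
theorem sum_chain (m : ℕ) (hm : 1 ≤ m) (u : ℕ) :
    ∑ j : Fin m, inc (che m j) u = (if 5 = u then 1 else 0) - (if 3 = u then 1 else 0) := by
  obtain ⟨q, rfl⟩ : ∃ q, m = q + 1 := ⟨m - 1, by omega⟩
  rw [Fin.sum_univ_castSucc]
  have h1 : ∀ j : Fin q, inc (che (q + 1) (Fin.castSucc j)) u =
      (if 5 + (j : ℕ) = u then 1 else 0) - (if 5 + ((j : ℕ) + 1) = u then 1 else 0) := by
    intro j
    have hj := j.2
    simp only [che, inc, Fin.val_castSucc]
    rw [if_neg (by omega : ¬ ((j : ℕ) + 1 = q + 1))]
    congr 2
    rw [show 6 + (j : ℕ) = 5 + ((j : ℕ) + 1) by omega]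
  have h2 : inc (che (q + 1) (Fin.last q)) u =
      (if 5 + q = u then 1 else 0) - (if 3 = u then 1 else 0) := by
    simp [che, inc]
  rw [h2, Finset.sum_congr rfl fun j _ => h1 j,
    Fin.sum_univ_eq_sum_range (fun j => ((if 5 + j = u then 1 else 0) -
      (if 5 + (j + 1) = u then 1 else 0) : ℤ)) q, Finset.sum_range_sub']
  ring

theorem vv_perp (m : ℕ) (hm : 1 ≤ m) (u : ℕ) : vv m u ∈ perp (sig m) := by
  unfold perp
  rw [Set.mem_ofPred_eq, Fintype.sum_sum_type]
  simp only [vv, sig, Sum.elim_inl, Sum.elim_inr]
  rw [← Finset.sum_mul, sum_chain m hm]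
  by_cases hu : u < 6
  · interval_cases u <;> simp [vt, Fin.sum_univ_five]
  · rw [vt_big (by omega), if_neg (by omega), if_neg (by omega)]
    simp

/-- The coefficients of a vector. -/
def coef (m : ℕ) (x : Fin 5 ⊕ Fin m → ℤ) (c : ℤ) (u : ℕ) : ℤ :=
  if u = 0 then -x (Sum.inl 4)
  else if u = 1 then -x (Sum.inl 4) - x (Sum.inl 0) - c
  else if u = 2 then c
  else if u = 3 then 0
  else if u = 4 then -x (Sum.inl 4) - x (Sum.inl 0) - c - x (Sum.inl 1)
  else ∑ i : Fin m, if u ≤ 5 + (i : ℕ) then x (Sum.inr i) else 0

theorem mem_closure_vv (m : ℕ) (hm : 1 ≤ m) (x : Fin 5 ⊕ Fin m → ℤ) (hx : x ∈ perp (sig m)) :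
    x ∈ AddSubgroup.closure (Set.range (vv m)) := by
  unfold perp at hx
  rw [Set.mem_ofPred_eq, Fintype.sum_sum_type, Fin.sum_univ_five] at hx
  simp only [sig, Sum.elim_inl, Sum.elim_inr] at hx
  rw [← Finset.sum_mul] at hx
  set F : ℤ := ∑ i : Fin m, x (Sum.inr i) with hF
  simp only [Matrix.cons_val] at hx
  push_cast at hx
  obtain ⟨c, hc⟩ : ∃ c, 2 * c = x (Sum.inl 3) - x (Sum.inl 0) + F :=
    ⟨(x (Sum.inl 3) - x (Sum.inl 0) + F) / 2, by omega⟩
  have hsum : x = ∑ u ∈ Finset.range (5 + m), coef m x c u • vv m u := by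
    have c5 : coef m x c 5 = F := by
      simp only [coef]
      norm_num
      rw [hF]
    funext k
    rw [Finset.sum_apply]
    simp only [Pi.smul_apply, smul_eq_mul]
    rcases k with k | i
    · simp only [vv, Sum.elim_inl]
      obtain ⟨q, rfl⟩ : ∃ q, m = q + 1 := ⟨m - 1, by omega⟩
      rw [Finset.sum_range_add, Finset.sum_range_succ' _ q]
      have hz : ∑ u ∈ Finset.range q, coef (q + 1) x c (5 + (u + 1)) * vt (5 + (u + 1)) k = 0 :=
        Finset.sum_eq_zero fun u _ => by rw [vt_big (by omega)]; simp
      rw [hz, show 5 + 0 = 5 from rfl, c5]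
      simp only [Finset.sum_range_succ, Finset.sum_range_zero]
      fin_cases k <;> simp [coef, vt] <;> omega
    · simp only [vv, Sum.elim_inr]
      have h1 : ∀ u, coef m x c u * inc (che m i) u =
          (if (che m i).1 = u then coef m x c (che m i).1 else 0) -
            (if (che m i).2 = u then coef m x c (che m i).2 else 0) := by
        intro u
        unfold inc
        split_ifs with a b b <;> simp_all
      simp only [h1]
      rw [Finset.sum_sub_distrib, Finset.sum_ite_eq, Finset.sum_ite_eq]
      have hi := i.2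
      have m1 : (che m i).1 ∈ Finset.range (5 + m) := by
        simp only [che, Finset.mem_range]; omega
      have m2 : (che m i).2 ∈ Finset.range (5 + m) := by
        simp only [che, Finset.mem_range]
        split_ifs <;> omega
      rw [if_pos m1, if_pos m2]
      have v1 : coef m x c (che m i).1 =
          ∑ j : Fin m, if (i : ℕ) ≤ j then x (Sum.inr j) else 0 := by
        simp only [che, coef]
        rw [if_neg (by omega), if_neg (by omega), if_neg (by omega), if_neg (by omega),
          if_neg (by omega)]
        refine Finset.sum_congr rfl fun j _ => ?_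
        simp
      have v2 : coef m x c (che m i).2 =
          ∑ j : Fin m, if (i : ℕ) + 1 ≤ j then x (Sum.inr j) else 0 := by
        simp only [che]
        by_cases hl : (i : ℕ) + 1 = m
        · rw [if_pos hl]
          have : coef m x c 3 = 0 := by simp [coef]
          rw [this]
          symm
          refine Finset.sum_eq_zero fun j _ => ?_
          have hj := j.2
          rw [if_neg (by omega)]
        · rw [if_neg hl]
          simp only [coef]
          rw [if_neg (by omega), if_neg (by omega), if_neg (by omega), if_neg (by omega),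
            if_neg (by omega)]
          refine Finset.sum_congr rfl fun j _ => ?_
          have : (6 + (i : ℕ) ≤ 5 + (j : ℕ)) ↔ ((i : ℕ) + 1 ≤ j) := by omega
          simp only [this]
      rw [v1, v2, ← Finset.sum_sub_distrib]
      have h2 : ∀ j : Fin m, ((if (i : ℕ) ≤ j then x (Sum.inr j) else 0) -
          (if (i : ℕ) + 1 ≤ j then x (Sum.inr j) else 0)) = if i = j then x (Sum.inr i) else 0 := by
        intro j
        by_cases hij : i = j
        · subst hij
          simp
        · have : (i : ℕ) ≠ j := fun e => hij (Fin.ext e)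
          by_cases hlt : (i : ℕ) ≤ j
          · rw [if_pos hlt, if_pos (by omega), if_neg hij]
            ring
          · rw [if_neg hlt, if_neg (by omega), if_neg hij]
            ring
      simp only [h2]
      simp
  rw [hsum]
  exact AddSubgroup.sum_mem _ fun u _ =>
    AddSubgroup.zsmul_mem _ (AddSubgroup.subset_closure (Set.mem_range_self u)) _

/-- Part (B): the checkerboard graph of `word m` has the lattice `perp (sig m)`. -/
theorem graph_perp (m : ℕ) (hm : 1 ≤ m) : IsGraphLattice (tait (word m)) (perp (sig m)) := by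
  refine ⟨vv m, gram m hm, ?_⟩
  ext x
  constructor
  · intro hx
    have hle : AddSubgroup.closure (Set.range (vv m)) ≤
        { carrier := perp (sig m)
          zero_mem' := by simp [perp]
          add_mem' := by
            intro a b ha hb
            simp only [perp, Set.mem_ofPred_eq, Pi.add_apply, add_mul,
              Finset.sum_add_distrib] at ha hb ⊢
            rw [ha, hb, add_zero]
          neg_mem' := by
            intro a ha
            simp only [perp, Set.mem_ofPred_eq, Pi.neg_apply, neg_mul,
              Finset.sum_neg_distrib] at ha ⊢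
            rw [ha, neg_zero] } := by
      rw [AddSubgroup.closure_le]
      rintro _ ⟨u, rfl⟩
      exact vv_perp m hm u
    exact hle hx
  · exact mem_closure_vv m hm x

theorem norm_sig (m : ℕ) : ∑ k, sig m k ^ 2 = 34 + 25 * m := by
  rw [Fintype.sum_sum_type, Fin.sum_univ_five]
  simp [sig]
  ring

end Pool.Agent.H30.AS
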