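import Pool.Agent.H30.AS.Parity

/-!
# Changemaker lattices of non-integer slopes with the entries `2, 2, 3, 4, 5` are not graph
lattices
-/

namespace Pool.Agent.H30.AS

open Finset

section ext

variable {ι : Type*} [Fintype ι] [DecidableEq ι] {n : ℕ}

/-- Extension by zero along `emb`. -/
def ext (emb : Fin n → ι) (y : Fin n → ℤ) : ι → ℤ := fun k => ∑ a, if emb a = k then y a else 0

theorem ip_ext (emb : Fin n → ι) (y : Fin n → ℤ) (v : ι → ℤ) :
    ip (ext emb y) v = ∑ a, y a * v (emb a) := by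
  unfold ip ext
  simp only [Finset.sum_mul]
  rw [Finset.sum_comm]
  refine Finset.sum_congr rfl fun a _ => ?_
  simp [ite_mul]

omit [Fintype ι] in
theorem ext_apply {emb : Fin n → ι} (h : Function.Injective emb) (y : Fin n → ℤ) (a : Fin n) :
    ext emb y (emb a) = y a := by
  unfold ext
  rw [Finset.sum_eq_single a]
  · simp
  · intro b _ hb
    rw [if_neg fun e => hb (h e)]
  · simp

omit [Fintype ι] in
theorem ext_off {emb : Fin n → ι} (y : Fin n → ℤ) (k : ι) (hk : ∀ a, emb a ≠ k) :
    ext emb y k = 0 := by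
  unfold ext
  refine Finset.sum_eq_zero fun a _ => by rw [if_neg (hk a)]

theorem ip_ext_ext {emb : Fin n → ι} (h : Function.Injective emb) (y z : Fin n → ℤ) :
    ip (ext emb y) (ext emb z) = ∑ a, y a * z a := by
  rw [ip_ext]
  refine Finset.sum_congr rfl fun a _ => by rw [ext_apply h]

omit [Fintype ι] in
theorem ext_comb (emb : Fin n → ι) (x y z t : Fin n → ℤ) :
    ext emb x + ext emb y + ext emb z - (2 : ℤ) • ext emb t =
      ext emb (x + y + z - (2 : ℤ) • t) := by
  funext k
  simp only [ext, Pi.add_apply, Pi.sub_apply, Pi.smul_apply, smul_eq_mul, Finset.mul_sum]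
  rw [← Finset.sum_add_distrib, ← Finset.sum_add_distrib, ← Finset.sum_sub_distrib]
  refine Finset.sum_congr rfl fun a _ => ?_
  split_ifs <;> ring

theorem sq_le_ip {emb : Fin n → ι} (h : Function.Injective emb) (p : ι → ℤ) :
    ∑ a, p (emb a) * p (emb a) ≤ ip p p := by
  unfold ip
  rw [← Finset.sum_image (s := Finset.univ) (g := emb) (f := fun k => p k * p k)
    (fun a _ b _ e => h e)]
  exact Finset.sum_le_univ_sum_of_nonneg fun _ => mul_self_nonneg _

theorem sq_add_le_ip {emb : Fin n → ι} (h : Function.Injective emb) (p : ι → ℤ) (k : ι)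
    (hk : ∀ a, emb a ≠ k) : ∑ a, p (emb a) * p (emb a) + p k * p k ≤ ip p p := by
  unfold ip
  rw [← Finset.sum_image (s := Finset.univ) (g := emb) (f := fun k => p k * p k)
    (fun a _ b _ e => h e)]
  have hk' : k ∉ Finset.univ.image emb := by
    simp only [Finset.mem_image, Finset.mem_univ, true_and, not_exists]
    exact hk
  rw [add_comm, ← Finset.sum_insert hk' (f := fun k => p k * p k)]
  exact Finset.sum_le_univ_sum_of_nonneg fun _ => mul_self_nonneg _

theorem ip_of_supp {emb : Fin n → ι} (h : Function.Injective emb) (p v : ι → ℤ)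
    (hp : ∀ k, (∀ a, emb a ≠ k) → p k = 0) : ip p v = ∑ a, p (emb a) * v (emb a) := by
  unfold ip
  rw [← Finset.sum_image (s := Finset.univ) (g := emb) (f := fun k => p k * v k)
    (fun a _ b _ e => h e)]
  symm
  refine Finset.sum_subset (Finset.subset_univ _) fun k _ hk => ?_
  rw [hp k, zero_mul]
  intro a e
  exact hk (Finset.mem_image.2 ⟨a, Finset.mem_univ _, e⟩)

end ext

theorem odd_sq {x : ℤ} (h : x % 2 = 1) : 1 ≤ x * x := by
  have : x ≠ 0 := by rintro rfl; simp at h
  rcases lt_or_gt_of_ne this with h1 | h1 <;> nlinarith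

theorem even_sq {x : ℤ} (h : x % 2 = 0) (h0 : x ≠ 0) : 4 ≤ x * x := by
  rcases lt_or_gt_of_ne h0 with h1 | h1
  · have : x ≤ -2 := by omega
    nlinarith
  · have : 2 ≤ x := by omega
    nlinarith

theorem even_zero {x : ℤ} (h : x % 2 = 0) (h0 : x * x < 4) : x = 0 := by
  by_contra hx
  have := even_sq h hx
  omega

theorem odd_one {x : ℤ} (h : x % 2 = 1) (h0 : x * x < 9) : x = 1 ∨ x = -1 := by
  have h1 : x < 3 := by nlinarith
  have h2 : -3 < x := by nlinarith
  omega

/-- The data of the first part of the lattice: a subgroup `R`, the first coordinate `e`, and a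
vector `z` in `R` with entries `0` and `1` and with `z e = 1`; a vector of `R` with at most one
nonzero entry vanishes. -/
structure Head (ε : Type*) [Fintype ε] where
  R : AddSubgroup (ε → ℤ)
  e : ε
  z : ε → ℤ
  zmem : z ∈ R
  ze : z e = 1
  z01 : ∀ j, z j = 0 ∨ z j = 1
  single : ∀ x ∈ R, ∀ j, (∀ i, i ≠ j → x i = 0) → x j = 0

variable {ε : Type*} [Fintype ε] (H : Head ε)

/-- The lattice with the head `H` and the tail `s`. -/
def Head.lattice {t : ℕ} (s : Fin t → ℕ) : Set (ε ⊕ Fin t → ℤ) :=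
  {x | (fun j => x (Sum.inl j)) ∈ H.R ∧
    x (Sum.inl H.e) + ∑ k, x (Sum.inr k) * (s k : ℤ) = 0}

/-- The norm of `z`. -/
def Head.nz : ℤ := ∑ j, H.z j

/-- The two parts of a vector. -/
def pl {t : ℕ} (x : ε ⊕ Fin t → ℤ) : ε → ℤ := fun j => x (Sum.inl j)

def pr {t : ℕ} (x : ε ⊕ Fin t → ℤ) : Fin t → ℤ := fun j => x (Sum.inr j)

theorem ip_split {t : ℕ} (x y : ε ⊕ Fin t → ℤ) : ip x y = ip (pl x) (pl y) + ip (pr x) (pr y) := by
  unfold ip pl pr
  exact Fintype.sum_sum_type _

theorem head_norm (c : ℤ) (y : ε → ℤ) (h : ∀ j, y j = c * H.z j) : ip y y = c * c * H.nz := by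
  unfold ip Head.nz
  rw [Finset.mul_sum]
  refine Finset.sum_congr rfl fun j _ => ?_
  rw [h j]
  rcases H.z01 j with e | e <;> rw [e] <;> ring

theorem ip_self_nonneg {ι : Type*} [Fintype ι] (x : ι → ℤ) : 0 ≤ ip x x :=
  Finset.sum_nonneg fun _ _ => mul_self_nonneg _

/-- A vector congruent to `z` modulo two has at least the norm of `z`. -/
theorem head_le (y : ε → ℤ) (h : ∀ j, (y j - H.z j) % 2 = 0) : H.nz ≤ ip y y := by
  unfold ip Head.nz
  refine Finset.sum_le_sum fun j _ => ?_
  rcases H.z01 j with e | e <;> rw [e]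
  · exact mul_self_nonneg _
  · refine odd_sq ?_
    have := h j
    rw [e] at this
    omega

/-- If the norm is smaller than `nz + 4`, the entry at `e` is `1` or `-1`. -/
theorem head_one (y : ε → ℤ) (h : ∀ j, (y j - H.z j) % 2 = 0) (hn : ip y y < H.nz + 4) :
    y H.e = 1 ∨ y H.e = -1 := by
  have hodd : y H.e % 2 = 1 := by
    have := h H.e
    rw [H.ze] at this
    omega
  refine odd_one hodd ?_
  have h1 : y H.e * y H.e - H.z H.e ≤ ∑ j, (y j * y j - H.z j) := by
    refine Finset.single_le_sum (f := fun j => y j * y j - H.z j) (fun j _ => ?_)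
      (Finset.mem_univ _)
    rcases H.z01 j with e | e <;> rw [e]
    · have := mul_self_nonneg (y j)
      linarith
    · have := odd_sq (x := y j) (by have := h j; rw [e] at this; omega)
      linarith
  rw [Finset.sum_sub_distrib, H.ze] at h1
  unfold ip Head.nz at hn
  linarith

/-- The weights. -/
def wt {t : ℕ} (s : Fin t → ℕ) : Fin t → ℤ := fun k => (s k : ℤ)

theorem mem_lattice {t : ℕ} (s : Fin t → ℕ) (x : ε ⊕ Fin t → ℤ) :
    x ∈ H.lattice s ↔ pl x ∈ H.R ∧ x (Sum.inl H.e) + ip (pr x) (wt s) = 0 := Iff.rfl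

/-- The vector with head `c z` and tail `y`. -/
def mk {t n : ℕ} (emb : Fin n → Fin t) (c : ℤ) (y : Fin n → ℤ) : ε ⊕ Fin t → ℤ :=
  Sum.elim (fun j => c * H.z j) (ext emb y)

theorem mk_comb {t n : ℕ} (emb : Fin n → Fin t) (c1 c2 c3 c4 : ℤ) (x y z w : Fin n → ℤ) :
    mk H emb c1 x + mk H emb c2 y + mk H emb c3 z - (2 : ℤ) • mk H emb c4 w =
      mk H emb (c1 + c2 + c3 - 2 * c4) (x + y + z - (2 : ℤ) • w) := by
  unfold mk
  rw [← ext_comb]
  funext k
  rcases k with k | k
  · simp only [Pi.add_apply, Pi.sub_apply, Pi.smul_apply, Sum.elim_inl, smul_eq_mul]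
    ring
  · simp only [Pi.add_apply, Pi.sub_apply, Pi.smul_apply, Sum.elim_inr, smul_eq_mul]

theorem mk_norm {t n : ℕ} {emb : Fin n → Fin t} (inj : Function.Injective emb) (c : ℤ)
    (y : Fin n → ℤ) : ip (mk H emb c y) (mk H emb c y) = c * c * H.nz + ∑ a, y a * y a := by
  rw [ip_split, head_norm H c (pl (mk H emb c y)) (fun j => rfl)]
  have : pr (mk H emb c y) = ext emb y := rfl
  rw [this, ip_ext_ext inj]

theorem mk_mem {t n : ℕ} {emb : Fin n → Fin t} (s : Fin t → ℕ) (c : ℤ) (y : Fin n → ℤ)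
    (h : c + ∑ a, y a * (s (emb a) : ℤ) = 0) : mk H emb c y ∈ H.lattice s := by
  rw [mem_lattice]
  constructor
  · have : pl (mk H emb c y) = c • H.z := by
      funext j
      simp [pl, mk]
    rw [this]
    exact AddSubgroup.zsmul_mem _ H.zmem c
  · have h1 : pr (mk H emb c y) = ext emb y := rfl
    rw [h1, ip_ext]
    simp only [mk, Sum.elim_inl, H.ze, wt]
    rw [mul_one]
    exact h

section A

variable {t : ℕ} {s : Fin t → ℕ} {o i2 i2' i3 i4 i5 : Fin t}

theorem embA_inj (ho : s o = 1) (h2 : s i2 = 2) (h2' : s i2' = 2) (hne : i2 ≠ i2')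
    (h3 : s i3 = 3) (h4 : s i4 = 4) (h5 : s i5 = 5) :
    Function.Injective ![o, i2, i2', i3, i4, i5] := by
  have key : ∀ a b : Fin t, s a ≠ s b → a ≠ b := fun a b h e => h (by rw [e])
  have e1 := key o i2 (by omega)
  have e2 := key o i2' (by omega)
  have e3 := key o i3 (by omega)
  have e4 := key o i4 (by omega)
  have e5 := key o i5 (by omega)
  have e6 := key i2 i3 (by omega)
  have e7 := key i2 i4 (by omega)
  have e8 := key i2 i5 (by omega)
  have e9 := key i2' i3 (by omega)
  have e10 := key i2' i4 (by omega)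
  have e11 := key i2' i5 (by omega)
  have e12 := key i3 i4 (by omega)
  have e13 := key i3 i5 (by omega)
  have e14 := key i4 i5 (by omega)
  intro a b hab
  fin_cases a <;> fin_cases b <;>
    first
    | rfl
    | (exfalso; revert hab; simp [hne, hne.symm, e1, e2, e3, e4, e5, e6, e7, e8, e9, e10,
        e11, e12, e13, e14, e1.symm, e2.symm, e3.symm, e4.symm, e5.symm, e6.symm, e7.symm,
        e8.symm, e9.symm, e10.symm, e11.symm, e12.symm, e13.symm, e14.symm])

/-- If there is an entry one. -/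
theorem not_graph_A (ho : s o = 1) (h2 : s i2 = 2) (h2' : s i2' = 2) (hne : i2 ≠ i2')
    (h3 : s i3 = 3) (h4 : s i4 = 4) (h5 : s i5 = 5) (E : List (ℕ × ℕ)) :
    ¬ IsGraphLattice E (H.lattice s) := by
  intro hG
  have inj := embA_inj ho h2 h2' hne h3 h4 h5
  set e := ![o, i2, i2', i3, i4, i5] with he
  have sv : ∀ y : Fin 6 → ℤ, ∑ a, y a * (s (e a) : ℤ) =
      y 0 + 2 * y 1 + 2 * y 2 + 3 * y 3 + 4 * y 4 + 5 * y 5 := by
    intro y
    simp only [Fin.sum_univ_six, he, Matrix.cons_val, ho, h2, h2', h3, h4, h5]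
    push_cast
    ring
  obtain ⟨p, hp, q, hq, r, hr, ⟨p', hp'⟩, ⟨q', hq'⟩, ⟨r', hr'⟩, hle⟩ := parity_ineq hG
    (mk H e 0 ![0, -2, 0, 0, 1, 0]) (mk H e 0 ![0, -1, -1, 1, -1, 1])
    (mk H e 1 ![-1, 0, 0, 0, 0, 0]) (mk H e 1 ![0, -1, -1, 1, 0, 0])
    (mk_mem H s _ _ (by rw [sv]; simp)) (mk_mem H s _ _ (by rw [sv]; simp))
    (mk_mem H s _ _ (by rw [sv]; simp)) (mk_mem H s _ _ (by rw [sv]; simp))
  rw [mk_comb, mk_norm H inj, mk_norm H inj, mk_norm H inj, mk_norm H inj] at hle
  simp only [Fin.sum_univ_six, Pi.add_apply, Pi.sub_apply, Pi.smul_apply, smul_eq_mul,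
    Matrix.cons_val] at hle
  norm_num at hle
  -- heads
  have lp : ∀ j, pl p j % 2 = 0 := by
    intro j
    simp only [pl, hp', mk, Pi.add_apply, Pi.smul_apply, Sum.elim_inl, smul_eq_mul]
    omega
  have lq : ∀ j, (pl q j - H.z j) % 2 = 0 := by
    intro j
    simp only [pl, hq', mk, Pi.add_apply, Pi.smul_apply, Sum.elim_inl, smul_eq_mul]
    omega
  have lr : ∀ j, (pl r j - H.z j) % 2 = 0 := by
    intro j
    simp only [pl, hr', mk, Pi.add_apply, Pi.smul_apply, Sum.elim_inl, smul_eq_mul]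
    omega
  -- tails
  have vp : ∀ a, pr p (e a) = (![0, -2, 0, 0, 1, 0] : Fin 6 → ℤ) a +
      (![0, -1, -1, 1, -1, 1] : Fin 6 → ℤ) a + 2 * p' (Sum.inr (e a)) := by
    intro a
    simp only [pr, hp', mk, Pi.add_apply, Pi.smul_apply, Sum.elim_inr, smul_eq_mul, ext_apply inj]
  have vq : ∀ a, pr q (e a) = (![0, -2, 0, 0, 1, 0] : Fin 6 → ℤ) a +
      (![-1, 0, 0, 0, 0, 0] : Fin 6 → ℤ) a + 2 * q' (Sum.inr (e a)) := by
    intro a
    simp only [pr, hq', mk, Pi.add_apply, Pi.smul_apply, Sum.elim_inr, smul_eq_mul, ext_apply inj]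
  have vr : ∀ a, pr r (e a) = (![0, -1, -1, 1, -1, 1] : Fin 6 → ℤ) a +
      (![-1, 0, 0, 0, 0, 0] : Fin 6 → ℤ) a + 2 * r' (Sum.inr (e a)) := by
    intro a
    simp only [pr, hr', mk, Pi.add_apply, Pi.smul_apply, Sum.elim_inr, smul_eq_mul, ext_apply inj]
  have op : ∀ k, (∀ a, e a ≠ k) → pr p k % 2 = 0 := by
    intro k hk
    simp only [pr, hp', mk, Pi.add_apply, Pi.smul_apply, Sum.elim_inr, smul_eq_mul,
      ext_off _ k hk]
    omega
  have oq : ∀ k, (∀ a, e a ≠ k) → pr q k % 2 = 0 := by
    intro k hk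
    simp only [pr, hq', mk, Pi.add_apply, Pi.smul_apply, Sum.elim_inr, smul_eq_mul,
      ext_off _ k hk]
    omega
  have hp8 : 8 ≤ ip p p := by
    by_contra hcon
    rw [ip_split] at hcon
    have p0 := vp 0
    have p1 := vp 1
    have p2 := vp 2
    have p3 := vp 3
    have p4 := vp 4
    have p5 := vp 5
    simp only [Matrix.cons_val] at p0 p1 p2 p3 p4 p5
    have q1 := odd_sq (x := pr p (e 1)) (by omega)
    have q2 := odd_sq (x := pr p (e 2)) (by omega)
    have q3 := odd_sq (x := pr p (e 3)) (by omega)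
    have q5 := odd_sq (x := pr p (e 5)) (by omega)
    have n0 := mul_self_nonneg (pr p (e 0))
    have n4 := mul_self_nonneg (pr p (e 4))
    have hl := ip_self_nonneg (pl p)
    have hs := sq_le_ip inj (pr p)
    simp only [Fin.sum_univ_six] at hs
    have hoff : ∀ k, (∀ a, e a ≠ k) → pr p k = 0 := by
      intro k hk
      have h1 := sq_add_le_ip inj (pr p) k hk
      simp only [Fin.sum_univ_six] at h1
      exact even_zero (op k hk) (by linarith)
    have he0 : p (Sum.inl H.e) = 0 := by
      have h1 : p (Sum.inl H.e) * p (Sum.inl H.e) ≤ ip (pl p) (pl p) :=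
        Finset.single_le_sum (f := fun j => pl p j * pl p j) (fun _ _ => mul_self_nonneg _)
          (Finset.mem_univ _)
      exact even_zero (lp H.e) (by linarith)
    have hrel := ((mem_lattice H s p).1 hp).2
    rw [ip_of_supp inj _ _ hoff] at hrel
    simp only [wt] at hrel
    rw [sv (fun a => pr p (e a)), he0] at hrel
    have z0 := even_zero (x := pr p (e 0)) (by omega) (by linarith)
    have z4 := even_zero (x := pr p (e 4)) (by omega) (by linarith)
    have w1 := odd_one (x := pr p (e 1)) (by omega) (by linarith)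
    have w2 := odd_one (x := pr p (e 2)) (by omega) (by linarith)
    have w3 := odd_one (x := pr p (e 3)) (by omega) (by linarith)
    have w5 := odd_one (x := pr p (e 5)) (by omega) (by linarith)
    omega
  have hq8 : H.nz + 6 ≤ ip q q := by
    by_contra hcon
    rw [ip_split] at hcon
    have p0 := vq 0
    have p1 := vq 1
    have p2 := vq 2
    have p3 := vq 3
    have p4 := vq 4
    have p5 := vq 5
    simp only [Matrix.cons_val] at p0 p1 p2 p3 p4 p5
    have q0 := odd_sq (x := pr q (e 0)) (by omega)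
    have q4 := odd_sq (x := pr q (e 4)) (by omega)
    have n1 := mul_self_nonneg (pr q (e 1))
    have n2 := mul_self_nonneg (pr q (e 2))
    have n3 := mul_self_nonneg (pr q (e 3))
    have n5 := mul_self_nonneg (pr q (e 5))
    have hl := head_le H (pl q) lq
    have hs := sq_le_ip inj (pr q)
    simp only [Fin.sum_univ_six] at hs
    have hoff : ∀ k, (∀ a, e a ≠ k) → pr q k = 0 := by
      intro k hk
      have h1 := sq_add_le_ip inj (pr q) k hk
      simp only [Fin.sum_univ_six] at h1
      exact even_zero (oq k hk) (by linarith)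
    have he0 : q (Sum.inl H.e) = 1 ∨ q (Sum.inl H.e) = -1 := head_one H (pl q) lq (by linarith)
    have hrel := ((mem_lattice H s q).1 hq).2
    rw [ip_of_supp inj _ _ hoff] at hrel
    simp only [wt] at hrel
    rw [sv (fun a => pr q (e a))] at hrel
    have z1 := even_zero (x := pr q (e 1)) (by omega) (by linarith)
    have z2 := even_zero (x := pr q (e 2)) (by omega) (by linarith)
    have z3 := even_zero (x := pr q (e 3)) (by omega) (by linarith)
    have z5 := even_zero (x := pr q (e 5)) (by omega) (by linarith)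
    have w0 := odd_one (x := pr q (e 0)) (by omega) (by linarith)
    have w4 := odd_one (x := pr q (e 4)) (by omega) (by linarith)
    omega
  have hr8 : H.nz + 6 ≤ ip r r := by
    rw [ip_split]
    have p0 := vr 0
    have p1 := vr 1
    have p2 := vr 2
    have p3 := vr 3
    have p4 := vr 4
    have p5 := vr 5
    simp only [Matrix.cons_val] at p0 p1 p2 p3 p4 p5
    have q0 := odd_sq (x := pr r (e 0)) (by omega)
    have q1 := odd_sq (x := pr r (e 1)) (by omega)
    have q2 := odd_sq (x := pr r (e 2)) (by omega)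
    have q3 := odd_sq (x := pr r (e 3)) (by omega)
    have q4 := odd_sq (x := pr r (e 4)) (by omega)
    have q5 := odd_sq (x := pr r (e 5)) (by omega)
    have hl := head_le H (pl r) lr
    have hs := sq_le_ip inj (pr r)
    simp only [Fin.sum_univ_six] at hs
    linarith
  linarith

end A

section B

variable {t : ℕ} {s : Fin t → ℕ} {i2 i2' i3 i4 i5 : Fin t}

theorem embB_inj (h2 : s i2 = 2) (h2' : s i2' = 2) (hne : i2 ≠ i2')
    (h3 : s i3 = 3) (h4 : s i4 = 4) (h5 : s i5 = 5) :
    Function.Injective ![i2, i2', i3, i4, i5] := by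
  have key : ∀ a b : Fin t, s a ≠ s b → a ≠ b := fun a b h e => h (by rw [e])
  have e6 := key i2 i3 (by omega)
  have e7 := key i2 i4 (by omega)
  have e8 := key i2 i5 (by omega)
  have e9 := key i2' i3 (by omega)
  have e10 := key i2' i4 (by omega)
  have e11 := key i2' i5 (by omega)
  have e12 := key i3 i4 (by omega)
  have e13 := key i3 i5 (by omega)
  have e14 := key i4 i5 (by omega)
  intro a b hab
  fin_cases a <;> fin_cases b <;>
    first
    | rfl
    | (exfalso; revert hab; simp [hne, hne.symm, e6, e7, e8, e9, e10,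
        e11, e12, e13, e14, e6.symm, e7.symm,
        e8.symm, e9.symm, e10.symm, e11.symm, e12.symm, e13.symm, e14.symm])

theorem sum_sq_le {ι : Type*} [Fintype ι] (A : Finset ι) (p : ι → ℤ) :
    ∑ k ∈ A, p k * p k ≤ ip p p :=
  Finset.sum_le_univ_sum_of_nonneg fun _ => mul_self_nonneg _

/-- A vector of the lattice whose only odd entry is one with coefficient `2` has norm at least
nine, if there is no entry one. -/
theorem nine_le (hno : ∀ k, s k ≠ 1) (h2' : s i2' = 2) (p : ε ⊕ Fin t → ℤ)
    (hp : p ∈ H.lattice s) (hodd : p (Sum.inr i2') % 2 = 1)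
    (heven : ∀ k, k ≠ Sum.inr i2' → p k % 2 = 0) : 9 ≤ ip p p := by
  classical
  by_contra hcon
  obtain ⟨hR, hrel⟩ := (mem_lattice H s p).1 hp
  have hj := odd_sq hodd
  have hj1 : p (Sum.inr i2') = 1 ∨ p (Sum.inr i2') = -1 := by
    refine odd_one hodd ?_
    have h := sum_sq_le {Sum.inr i2'} p
    rw [Finset.sum_singleton] at h
    linarith
  -- at most one other entry is nonzero
  have hother : ∀ k l, k ≠ Sum.inr i2' → l ≠ Sum.inr i2' → p k ≠ 0 → l ≠ k → p l = 0 := by
    intro k l hk hl hk0 hlk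
    by_contra hl0
    have ek := even_sq (heven k hk) hk0
    have el := even_sq (heven l hl) hl0
    have h := sum_sq_le {l, k, Sum.inr i2'} p
    rw [Finset.sum_insert (by simp [hl, hlk]), Finset.sum_insert (by simp [hk]),
      Finset.sum_singleton] at h
    linarith
  -- the head vanishes
  have hz : ∀ j, p (Sum.inl j) = 0 := by
    intro j
    by_contra h0
    exact h0 (H.single _ hR j fun i hi =>
      hother (Sum.inl j) (Sum.inl i) (by simp) (by simp) h0 (by simpa using hi))
  rw [hz H.e, zero_add] at hrel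
  by_cases hex : ∃ κ, κ ≠ i2' ∧ p (Sum.inr κ) ≠ 0
  · obtain ⟨κ, hk, hk0⟩ := hex
    have hk' : (Sum.inr κ : ε ⊕ Fin t) ≠ Sum.inr i2' := by simpa using hk
    have ek := even_sq (heven _ hk') hk0
    have hkk : p (Sum.inr κ) * p (Sum.inr κ) < 9 := by
      have h := sum_sq_le {Sum.inr κ, Sum.inr i2'} p
      rw [Finset.sum_insert (by simp [hk]), Finset.sum_singleton] at h
      linarith
    have hk2 : p (Sum.inr κ) = 2 ∨ p (Sum.inr κ) = -2 := by
      have h1 : p (Sum.inr κ) < 3 := by nlinarith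
      have h2 : -3 < p (Sum.inr κ) := by nlinarith
      have h3 := heven _ hk'
      omega
    have hsum : ip (pr p) (wt s) = p (Sum.inr κ) * wt s κ + p (Sum.inr i2') * wt s i2' := by
      have hsub : ip (pr p) (wt s) = ∑ l ∈ ({κ, i2'} : Finset (Fin t)), pr p l * wt s l := by
        unfold ip
        symm
        refine Finset.sum_subset (Finset.subset_univ _) fun l _ hl => ?_
        simp only [Finset.mem_insert, Finset.mem_singleton, not_or] at hl
        have : pr p l = 0 := hother (Sum.inr κ) (Sum.inr l) hk' (by simpa using hl.2) hk0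
          (by simpa using hl.1)
        rw [this, zero_mul]
      rw [hsub, Finset.sum_insert (by simpa using hk), Finset.sum_singleton]
      rfl
    rw [hsum] at hrel
    simp only [wt, h2'] at hrel
    have hκ := hno κ
    push_cast at hrel
    rcases hk2 with e | e <;> rcases hj1 with e' | e' <;> rw [e, e'] at hrel <;> omega
  · have hsum : ip (pr p) (wt s) = p (Sum.inr i2') * wt s i2' := by
      unfold ip
      refine Finset.sum_eq_single _ (fun l _ hl => ?_) (by simp)
      have : pr p l = 0 := by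
        by_contra h
        exact hex ⟨l, hl, h⟩
      rw [this, zero_mul]
    rw [hsum] at hrel
    simp only [wt, h2'] at hrel
    push_cast at hrel
    rcases hj1 with e' | e' <;> rw [e'] at hrel <;> omega

/-- If there is no entry one. -/
theorem not_graph_B (hno : ∀ k, s k ≠ 1) (h2 : s i2 = 2) (h2' : s i2' = 2) (hne : i2 ≠ i2')
    (h3 : s i3 = 3) (h4 : s i4 = 4) (h5 : s i5 = 5) (E : List (ℕ × ℕ)) :
    ¬ IsGraphLattice E (H.lattice s) := by
  intro hG
  have inj := embB_inj h2 h2' hne h3 h4 h5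
  set e := ![i2, i2', i3, i4, i5] with he
  have sv : ∀ y : Fin 5 → ℤ, ∑ a, y a * (s (e a) : ℤ) =
      2 * y 0 + 2 * y 1 + 3 * y 2 + 4 * y 3 + 5 * y 4 := by
    intro y
    simp only [Fin.sum_univ_five, he, Matrix.cons_val, h2, h2', h3, h4, h5]
    push_cast
    ring
  obtain ⟨p, hp, q, hq, r, hr, ⟨p', hp'⟩, ⟨q', hq'⟩, ⟨r', hr'⟩, hle⟩ := parity_ineq hG
    (mk H e 0 ![-2, 0, 0, 1, 0]) (mk H e 0 ![0, 1, -2, 1, 0])
    (mk H e (-1) ![0, 0, 0, -1, 1]) (mk H e 0 ![-1, 0, -1, 0, 1])
    (mk_mem H s _ _ (by rw [sv]; simp)) (mk_mem H s _ _ (by rw [sv]; simp))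
    (mk_mem H s _ _ (by rw [sv]; simp)) (mk_mem H s _ _ (by rw [sv]; simp))
  rw [mk_comb, mk_norm H inj, mk_norm H inj, mk_norm H inj, mk_norm H inj] at hle
  simp only [Fin.sum_univ_five, Pi.add_apply, Pi.sub_apply, Pi.smul_apply, smul_eq_mul,
    Matrix.cons_val] at hle
  norm_num at hle
  have lp : ∀ j, p (Sum.inl j) % 2 = 0 := by
    intro j
    simp only [hp', mk, Pi.add_apply, Pi.smul_apply, Sum.elim_inl, smul_eq_mul]
    omega
  have lq : ∀ j, (pl q j - H.z j) % 2 = 0 := by
    intro j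
    simp only [pl, hq', mk, Pi.add_apply, Pi.smul_apply, Sum.elim_inl, smul_eq_mul]
    omega
  have lr : ∀ j, (pl r j - H.z j) % 2 = 0 := by
    intro j
    simp only [pl, hr', mk, Pi.add_apply, Pi.smul_apply, Sum.elim_inl, smul_eq_mul]
    omega
  have vp : ∀ a, pr p (e a) = (![-2, 0, 0, 1, 0] : Fin 5 → ℤ) a +
      (![0, 1, -2, 1, 0] : Fin 5 → ℤ) a + 2 * p' (Sum.inr (e a)) := by
    intro a
    simp only [pr, hp', mk, Pi.add_apply, Pi.smul_apply, Sum.elim_inr, smul_eq_mul, ext_apply inj]
  have vq : ∀ a, pr q (e a) = (![-2, 0, 0, 1, 0] : Fin 5 → ℤ) a +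
      (![0, 0, 0, -1, 1] : Fin 5 → ℤ) a + 2 * q' (Sum.inr (e a)) := by
    intro a
    simp only [pr, hq', mk, Pi.add_apply, Pi.smul_apply, Sum.elim_inr, smul_eq_mul, ext_apply inj]
  have vr : ∀ a, pr r (e a) = (![0, 1, -2, 1, 0] : Fin 5 → ℤ) a +
      (![0, 0, 0, -1, 1] : Fin 5 → ℤ) a + 2 * r' (Sum.inr (e a)) := by
    intro a
    simp only [pr, hr', mk, Pi.add_apply, Pi.smul_apply, Sum.elim_inr, smul_eq_mul, ext_apply inj]
  have op : ∀ k, (∀ a, e a ≠ k) → pr p k % 2 = 0 := by
    intro k hk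
    simp only [pr, hp', mk, Pi.add_apply, Pi.smul_apply, Sum.elim_inr, smul_eq_mul,
      ext_off _ k hk]
    omega
  have oq : ∀ k, (∀ a, e a ≠ k) → pr q k % 2 = 0 := by
    intro k hk
    simp only [pr, hq', mk, Pi.add_apply, Pi.smul_apply, Sum.elim_inr, smul_eq_mul,
      ext_off _ k hk]
    omega
  have or' : ∀ k, (∀ a, e a ≠ k) → pr r k % 2 = 0 := by
    intro k hk
    simp only [pr, hr', mk, Pi.add_apply, Pi.smul_apply, Sum.elim_inr, smul_eq_mul,
      ext_off _ k hk]
    omega
  have hp9 : 9 ≤ ip p p := by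
    have p0 := vp 0
    have p1 := vp 1
    have p2 := vp 2
    have p3 := vp 3
    have p4 := vp 4
    simp only [Matrix.cons_val] at p0 p1 p2 p3 p4
    have e1 : p (Sum.inr i2') = pr p (e 1) := rfl
    refine nine_le H hno h2' p hp (by rw [e1]; omega) ?_
    intro k hk
    rcases k with k | k
    · exact lp k
    · by_cases hk' : ∀ a, e a ≠ k
      · exact op k hk'
      · push Not at hk'
        obtain ⟨a, rfl⟩ := hk'
        fin_cases a
        · show pr p (e 0) % 2 = 0
          omega
        · exact absurd rfl hk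
        · show pr p (e 2) % 2 = 0
          omega
        · show pr p (e 3) % 2 = 0
          omega
        · show pr p (e 4) % 2 = 0
          omega
  have hq7 : H.nz + 5 ≤ ip q q := by
    by_contra hcon
    rw [ip_split] at hcon
    have p0 := vq 0
    have p1 := vq 1
    have p2 := vq 2
    have p3 := vq 3
    have p4 := vq 4
    simp only [Matrix.cons_val] at p0 p1 p2 p3 p4
    have q4 := odd_sq (x := pr q (e 4)) (by omega)
    have n0 := mul_self_nonneg (pr q (e 0))
    have n1 := mul_self_nonneg (pr q (e 1))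
    have n2 := mul_self_nonneg (pr q (e 2))
    have n3 := mul_self_nonneg (pr q (e 3))
    have hl := head_le H (pl q) lq
    have hs := sq_le_ip inj (pr q)
    simp only [Fin.sum_univ_five] at hs
    have hoff : ∀ k, (∀ a, e a ≠ k) → pr q k = 0 := by
      intro k hk
      have h1 := sq_add_le_ip inj (pr q) k hk
      simp only [Fin.sum_univ_five] at h1
      exact even_zero (oq k hk) (by linarith)
    have he0 : q (Sum.inl H.e) = 1 ∨ q (Sum.inl H.e) = -1 := head_one H (pl q) lq (by linarith)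
    have hrel := ((mem_lattice H s q).1 hq).2
    rw [ip_of_supp inj _ _ hoff] at hrel
    simp only [wt] at hrel
    rw [sv (fun a => pr q (e a))] at hrel
    have z0 := even_zero (x := pr q (e 0)) (by omega) (by linarith)
    have z1 := even_zero (x := pr q (e 1)) (by omega) (by linarith)
    have z2 := even_zero (x := pr q (e 2)) (by omega) (by linarith)
    have z3 := even_zero (x := pr q (e 3)) (by omega) (by linarith)
    have w4 := odd_one (x := pr q (e 4)) (by omega) (by linarith)
    omega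
  have hr8 : H.nz + 6 ≤ ip r r := by
    by_contra hcon
    rw [ip_split] at hcon
    have p0 := vr 0
    have p1 := vr 1
    have p2 := vr 2
    have p3 := vr 3
    have p4 := vr 4
    simp only [Matrix.cons_val] at p0 p1 p2 p3 p4
    have q1 := odd_sq (x := pr r (e 1)) (by omega)
    have q4 := odd_sq (x := pr r (e 4)) (by omega)
    have n0 := mul_self_nonneg (pr r (e 0))
    have n2 := mul_self_nonneg (pr r (e 2))
    have n3 := mul_self_nonneg (pr r (e 3))
    have hl := head_le H (pl r) lr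
    have hs := sq_le_ip inj (pr r)
    simp only [Fin.sum_univ_five] at hs
    have hoff : ∀ k, (∀ a, e a ≠ k) → pr r k = 0 := by
      intro k hk
      have h1 := sq_add_le_ip inj (pr r) k hk
      simp only [Fin.sum_univ_five] at h1
      exact even_zero (or' k hk) (by linarith)
    have he0 : r (Sum.inl H.e) = 1 ∨ r (Sum.inl H.e) = -1 := head_one H (pl r) lr (by linarith)
    have hrel := ((mem_lattice H s r).1 hr).2
    rw [ip_of_supp inj _ _ hoff] at hrel
    simp only [wt] at hrel
    rw [sv (fun a => pr r (e a))] at hrel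
    have z0 := even_zero (x := pr r (e 0)) (by omega) (by linarith)
    have z2 := even_zero (x := pr r (e 2)) (by omega) (by linarith)
    have z3 := even_zero (x := pr r (e 3)) (by omega) (by linarith)
    have w1 := odd_one (x := pr r (e 1)) (by omega) (by linarith)
    have w4 := odd_one (x := pr r (e 4)) (by omega) (by linarith)
    omega
  linarith

end B

/-- A lattice with the tail entries `2, 2, 3, 4, 5` is not a graph lattice. -/
theorem not_graph {t : ℕ} {s : Fin t → ℕ} {i2 i2' i3 i4 i5 : Fin t} (h2 : s i2 = 2)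
    (h2' : s i2' = 2) (hne : i2 ≠ i2') (h3 : s i3 = 3) (h4 : s i4 = 4) (h5 : s i5 = 5)
    (E : List (ℕ × ℕ)) : ¬ IsGraphLattice E (H.lattice s) := by
  by_cases h : ∃ o, s o = 1
  · obtain ⟨o, ho⟩ := h
    exact not_graph_A H ho h2 h2' hne h3 h4 h5 E
  · exact not_graph_B H (fun k hk => h ⟨k, hk⟩) h2 h2' hne h3 h4 h5 E

end Pool.Agent.H30.AS
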