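import Pool.Agent.H30.AS.Defs

/-!
# The parity inequality for graph lattices

For three classes `a, b, c` modulo two of a graph lattice, with `N` the minimal norm in a class,
`N (a + b) + N (a + c) + N (b + c) ≤ N a + N b + N c + N (a + b + c)`.
-/

namespace Pool.Agent.H30.AS

open Finset

/-- The bilinear form of a graph in terms of coefficients. -/
def qf (E : List (ℕ × ℕ)) (c d : ℕ →₀ ℤ) : ℤ :=
  (E.map fun e => (c e.1 - c e.2) * (d e.1 - d e.2)).sum

theorem inc_single (e : ℕ × ℕ) (u : ℕ) (a : ℤ) :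
    (Finsupp.single u a) e.1 - (Finsupp.single u a) e.2 = a * inc e u := by
  unfold inc
  rw [Finsupp.single_apply, Finsupp.single_apply]
  by_cases h1 : u = e.1
  · by_cases h2 : u = e.2
    · rw [if_pos h1, if_pos h2, if_pos h1.symm, if_pos h2.symm]; ring
    · rw [if_pos h1, if_neg h2, if_pos h1.symm, if_neg (Ne.symm h2)]; ring
  · by_cases h2 : u = e.2
    · rw [if_neg h1, if_pos h2, if_neg (Ne.symm h1), if_pos h2.symm]; ring
    · rw [if_neg h1, if_neg h2, if_neg (Ne.symm h1), if_neg (Ne.symm h2)]; ring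

theorem qf_single (E : List (ℕ × ℕ)) (u v : ℕ) (a b : ℤ) :
    qf E (Finsupp.single u a) (Finsupp.single v b) = a * b * lap E u v := by
  unfold qf lap
  induction E with
  | nil => simp
  | cons e E ih =>
    simp only [List.map_cons, List.sum_cons]
    rw [ih, inc_single, inc_single]
    ring

theorem qf_add_left (E : List (ℕ × ℕ)) (c c' d : ℕ →₀ ℤ) :
    qf E (c + c') d = qf E c d + qf E c' d := by
  unfold qf
  induction E with
  | nil => simp
  | cons e E ih =>
    simp only [List.map_cons, List.sum_cons, Finsupp.add_apply] at ih ⊢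
    rw [ih]
    ring

theorem qf_add_right (E : List (ℕ × ℕ)) (c d d' : ℕ →₀ ℤ) :
    qf E c (d + d') = qf E c d + qf E c d' := by
  unfold qf
  induction E with
  | nil => simp
  | cons e E ih =>
    simp only [List.map_cons, List.sum_cons, Finsupp.add_apply] at ih ⊢
    rw [ih]
    ring

variable {ι : Type*} [Fintype ι]

/-- The inner product. -/
def ip (x y : ι → ℤ) : ℤ := ∑ k, x k * y k

theorem ip_add_left (x x' y : ι → ℤ) : ip (x + x') y = ip x y + ip x' y := by
  simp [ip, add_mul, Finset.sum_add_distrib]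

theorem ip_add_right (x y y' : ι → ℤ) : ip x (y + y') = ip x y + ip x y' := by
  simp [ip, mul_add, Finset.sum_add_distrib]

theorem ip_smul (a b : ℤ) (x y : ι → ℤ) : ip (a • x) (b • y) = a * b * ip x y := by
  simp only [ip, Pi.smul_apply, smul_eq_mul, Finset.mul_sum]
  refine Finset.sum_congr rfl fun k _ => by ring

theorem ip_comb (E : List (ℕ × ℕ)) (B : ℕ → ι → ℤ) (hB : ∀ u v, ip (B u) (B v) = lap E u v)
    (c d : ℕ →₀ ℤ) :
    ip (Finsupp.linearCombination ℤ B c) (Finsupp.linearCombination ℤ B d) = qf E c d := by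
  induction c using Finsupp.induction_linear with
  | zero => simp [ip, qf]
  | add c c' h h' => rw [map_add, ip_add_left, h, h', qf_add_left]
  | single u a =>
    induction d using Finsupp.induction_linear with
    | zero => simp [ip, qf]
    | add d d' h h' => rw [map_add, ip_add_right, h, h', qf_add_right]
    | single v b =>
      rw [Finsupp.linearCombination_single, Finsupp.linearCombination_single, ip_smul, hB,
        qf_single]

theorem mem_closure_range (B : ℕ → ι → ℤ) (x : ι → ℤ) :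
    x ∈ AddSubgroup.closure (Set.range B) ↔ ∃ c, Finsupp.linearCombination ℤ B c = x := by
  constructor
  · intro h
    induction h using AddSubgroup.closure_induction with
    | mem x hx =>
      obtain ⟨u, rfl⟩ := hx
      exact ⟨Finsupp.single u 1, by simp⟩
    | zero => exact ⟨0, by simp⟩
    | add x y _ _ hx hy =>
      obtain ⟨c, rfl⟩ := hx
      obtain ⟨d, rfl⟩ := hy
      exact ⟨c + d, by simp⟩
    | neg x _ hx =>
      obtain ⟨c, rfl⟩ := hx
      exact ⟨-c, by simp⟩
  · rintro ⟨c, rfl⟩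
    induction c using Finsupp.induction_linear with
    | zero => simp
    | add c d h h' => rw [map_add]; exact AddSubgroup.add_mem _ h h'
    | single u a =>
      rw [Finsupp.linearCombination_single]
      exact AddSubgroup.zsmul_mem _ (AddSubgroup.subset_closure (Set.mem_range_self u)) a

/-- Coefficients reduced modulo two. -/
noncomputable def red (c : ℕ →₀ ℤ) : ℕ →₀ ℤ := c.mapRange (fun a => a % 2) (by simp)

/-- Half of the rest. -/
noncomputable def hal (c : ℕ →₀ ℤ) : ℕ →₀ ℤ := c.mapRange (fun a => a / 2) (by simp)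

theorem red_add_hal (c : ℕ →₀ ℤ) : c = red c + (2 : ℤ) • hal c := by
  ext u
  simp only [red, hal, Finsupp.add_apply, Finsupp.smul_apply, Finsupp.mapRange_apply, smul_eq_mul]
  omega

theorem edge_ineq (a1 a2 b1 b2 c1 c2 t1 t2 : ℤ) :
    ((a1 + b1) % 2 - (a2 + b2) % 2) * ((a1 + b1) % 2 - (a2 + b2) % 2) +
      ((a1 + c1) % 2 - (a2 + c2) % 2) * ((a1 + c1) % 2 - (a2 + c2) % 2) +
      ((b1 + c1) % 2 - (b2 + c2) % 2) * ((b1 + c1) % 2 - (b2 + c2) % 2) ≤
    (a1 - a2) * (a1 - a2) + (b1 - b2) * (b1 - b2) + (c1 - c2) * (c1 - c2) +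
      (a1 + b1 + c1 - 2 * t1 - (a2 + b2 + c2 - 2 * t2)) *
        (a1 + b1 + c1 - 2 * t1 - (a2 + b2 + c2 - 2 * t2)) := by
  have key : ∀ x y : ℤ, (x % 2 - y % 2) * (x % 2 - y % 2) = (x - y) % 2 := by
    intro x y
    have hx : x % 2 = 0 ∨ x % 2 = 1 := by omega
    have hy : y % 2 = 0 ∨ y % 2 = 1 := by omega
    rcases hx with hx | hx <;> rcases hy with hy | hy <;> rw [hx, hy] <;> omega
  have sq : ∀ x : ℤ, x % 2 ≤ x * x := by
    intro x
    rcases Int.lt_trichotomy x 0 with h | h | h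
    · nlinarith [show x % 2 ≤ 1 by omega]
    · subst h; simp
    · nlinarith [show x % 2 ≤ 1 by omega]
  rw [key, key, key]
  have h1 := sq (a1 - a2)
  have h2 := sq (b1 - b2)
  have h3 := sq (c1 - c2)
  have h4 := sq (a1 + b1 + c1 - 2 * t1 - (a2 + b2 + c2 - 2 * t2))
  have h5 : (a1 + b1 - (a2 + b2)) % 2 + (a1 + c1 - (a2 + c2)) % 2 + (b1 + c1 - (b2 + c2)) % 2 ≤
      (a1 - a2) % 2 + (b1 - b2) % 2 + (c1 - c2) % 2 +
        (a1 + b1 + c1 - 2 * t1 - (a2 + b2 + c2 - 2 * t2)) % 2 := by
    omega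
  linarith

theorem qf_ineq (E : List (ℕ × ℕ)) (a b c t : ℕ →₀ ℤ) :
    qf E (red (a + b)) (red (a + b)) + qf E (red (a + c)) (red (a + c)) +
      qf E (red (b + c)) (red (b + c)) ≤
    qf E a a + qf E b b + qf E c c +
      qf E (a + b + c - (2 : ℤ) • t) (a + b + c - (2 : ℤ) • t) := by
  unfold qf
  induction E with
  | nil => simp
  | cons e E ih =>
    simp only [List.map_cons, List.sum_cons]
    have h := edge_ineq (a e.1) (a e.2) (b e.1) (b e.2) (c e.1) (c e.2) (t e.1) (t e.2)
    simp only [red, Finsupp.mapRange_apply, Finsupp.add_apply, Finsupp.sub_apply,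
      Finsupp.smul_apply, smul_eq_mul] at h ih ⊢
    linarith

/-- The parity inequality. -/
theorem parity_ineq {E : List (ℕ × ℕ)} {L : Set (ι → ℤ)} (h : IsGraphLattice E L)
    (x y z t : ι → ℤ) (hx : x ∈ L) (hy : y ∈ L) (hz : z ∈ L) (ht : t ∈ L) :
    ∃ p ∈ L, ∃ q ∈ L, ∃ r ∈ L, (∃ p', p = x + y + (2 : ℤ) • p') ∧
      (∃ q', q = x + z + (2 : ℤ) • q') ∧ (∃ r', r = y + z + (2 : ℤ) • r') ∧
      ip p p + ip q q + ip r r ≤ ip x x + ip y y + ip z z +
        ip (x + y + z - (2 : ℤ) • t) (x + y + z - (2 : ℤ) • t) := by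
  obtain ⟨B, hB, rfl⟩ := h
  have hB' : ∀ u v, ip (B u) (B v) = lap E u v := hB
  obtain ⟨a, rfl⟩ := (mem_closure_range B x).1 hx
  obtain ⟨b, rfl⟩ := (mem_closure_range B y).1 hy
  obtain ⟨c, rfl⟩ := (mem_closure_range B z).1 hz
  obtain ⟨d, rfl⟩ := (mem_closure_range B t).1 ht
  have hred : ∀ f g : ℕ →₀ ℤ, Finsupp.linearCombination ℤ B (red (f + g)) =
      Finsupp.linearCombination ℤ B f + Finsupp.linearCombination ℤ B g +
        (2 : ℤ) • (-Finsupp.linearCombination ℤ B (hal (f + g))) := by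
    intro f g
    have h1 := congrArg (Finsupp.linearCombination ℤ B) (red_add_hal (f + g))
    rw [map_add, map_add, map_smul] at h1
    rw [h1, smul_neg, add_assoc, add_neg_cancel, add_zero]
  refine ⟨_, (mem_closure_range B _).2 ⟨red (a + b), rfl⟩, _,
    (mem_closure_range B _).2 ⟨red (a + c), rfl⟩, _,
    (mem_closure_range B _).2 ⟨red (b + c), rfl⟩, ⟨_, hred a b⟩, ⟨_, hred a c⟩, ⟨_, hred b c⟩, ?_⟩
  have hlin : Finsupp.linearCombination ℤ B a + Finsupp.linearCombination ℤ B b +
      Finsupp.linearCombination ℤ B c - (2 : ℤ) • Finsupp.linearCombination ℤ B d =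
      Finsupp.linearCombination ℤ B (a + b + c - (2 : ℤ) • d) := by
    rw [map_sub, map_add, map_add, map_smul]
  rw [hlin, ip_comb E B hB', ip_comb E B hB', ip_comb E B hB', ip_comb E B hB',
    ip_comb E B hB', ip_comb E B hB', ip_comb E B hB']
  exact qf_ineq E a b c d

end Pool.Agent.H30.AS
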