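import Pool.Agent.H30.AS.Defs

/-!
# The torsion sequence determines the entries `2, 2, 3, 4, 5`
-/

namespace Pool.Agent.H30.AS

open Finset

section general

variable {ι : Type*} [Fintype ι]

/-- The genus of `s`. -/
def gen (s : ι → ℕ) : ℕ := ∑ k, (s k).choose 2

/-- There is an integer vector of value `j` and cost at most `N`. -/
def Rep (s : ι → ℕ) (j : ℤ) (N : ℕ) : Prop :=
  ∃ m : ι → ℤ, ∑ k, m k * (s k : ℤ) = j ∧ ∑ k, m k * (m k + 1) ≤ 2 * (N : ℤ)

theorem two_choose (a : ℕ) : 2 * ((a.choose 2 : ℕ) : ℤ) = (a : ℤ) ^ 2 - a := by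
  induction a with
  | zero => simp
  | succ a ih =>
    rw [Nat.choose_succ_succ' a 1, Nat.choose_one_right]
    push_cast
    linarith

theorem two_gen (s : ι → ℕ) : 2 * (gen s : ℤ) = ∑ k, (s k : ℤ) ^ 2 - ∑ k, (s k : ℤ) := by
  unfold gen
  push_cast
  rw [Finset.mul_sum, ← Finset.sum_sub_distrib]
  exact Finset.sum_congr rfl fun k _ => two_choose (s k)

theorem two_gen_le (s : ι → ℕ) : 2 * gen s ≤ ∑ k, s k ^ 2 := by
  have h := two_gen s
  have h1 : (0 : ℤ) ≤ ∑ k, (s k : ℤ) := Finset.sum_nonneg fun k _ => by positivity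
  have h2 : (2 * gen s : ℤ) ≤ ((∑ k, s k ^ 2 : ℕ) : ℤ) := by
    push_cast
    linarith
  exact_mod_cast h2

theorem mul_succ_nonneg (a : ℤ) : 0 ≤ a * (a + 1) := by
  rcases lt_or_ge a 0 with h | h
  · have : a + 1 ≤ 0 := by omega
    nlinarith
  · positivity

theorem mul_succ_even (a : ℤ) : ∃ b, a * (a + 1) = 2 * b := by
  rcases Int.even_or_odd' a with ⟨c, h | h⟩
  · exact ⟨c * (a + 1), by rw [h]; ring⟩
  · exact ⟨a * (c + 1), by rw [h]; ring⟩

theorem torsion_set (s : ι → ℕ) (i v : ℕ) :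
    (∃ c : ι → ℤ, (∀ k, Odd (c k)) ∧
      ∑ k, c k * (s k : ℤ) = ∑ k, (s k : ℤ) ^ 2 - 2 * i ∧
      ∑ k, c k ^ 2 = 8 * (v : ℤ) + Fintype.card ι) ↔
    ∃ m : ι → ℤ, ∑ k, m k * (s k : ℤ) = gen s - i ∧ ∑ k, m k * (m k + 1) = 2 * (v : ℤ) := by
  have hg := two_gen s
  constructor
  · rintro ⟨c, hodd, h1, h2⟩
    choose m hm using hodd
    refine ⟨m, ?_, ?_⟩
    · have h3 : ∑ k, c k * (s k : ℤ) = 2 * ∑ k, m k * (s k : ℤ) + ∑ k, (s k : ℤ) := by
        rw [Finset.mul_sum, ← Finset.sum_add_distrib]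
        refine Finset.sum_congr rfl fun k _ => by rw [hm k]; ring
      linarith
    · have h3 : ∑ k, c k ^ 2 = 4 * ∑ k, m k * (m k + 1) + Fintype.card ι := by
        have : (Fintype.card ι : ℤ) = ∑ _k : ι, (1 : ℤ) := by simp
        rw [this, Finset.mul_sum, ← Finset.sum_add_distrib]
        refine Finset.sum_congr rfl fun k _ => by rw [hm k]; ring
      linarith
  · rintro ⟨m, h1, h2⟩
    refine ⟨fun k => 2 * m k + 1, fun k => ⟨m k, rfl⟩, ?_, ?_⟩
    · have h3 : ∑ k, (2 * m k + 1) * (s k : ℤ) = 2 * ∑ k, m k * (s k : ℤ) + ∑ k, (s k : ℤ) := by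
        rw [Finset.mul_sum, ← Finset.sum_add_distrib]
        refine Finset.sum_congr rfl fun k _ => by ring
      linarith
    · have h3 : ∑ k, (2 * m k + 1) ^ 2 = 4 * ∑ k, m k * (m k + 1) + Fintype.card ι := by
        have : (Fintype.card ι : ℤ) = ∑ _k : ι, (1 : ℤ) := by simp
        rw [this, Finset.mul_sum, ← Finset.sum_add_distrib]
        refine Finset.sum_congr rfl fun k _ => by ring
      linarith

theorem torsion_le_iff (s : ι → ℕ) (h1 : ∃ k, s k = 1) (i N : ℕ)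
    (hi : 2 * i ≤ ∑ k, s k ^ 2) : torsion s i ≤ N ↔ Rep s (gen s - i) N := by
  classical
  unfold torsion
  rw [if_pos hi]
  set S : Set ℕ := {v : ℕ | ∃ c : ι → ℤ, (∀ k, Odd (c k)) ∧
      ∑ k, c k * (s k : ℤ) = ∑ k, (s k : ℤ) ^ 2 - 2 * i ∧
      ∑ k, c k ^ 2 = 8 * (v : ℤ) + Fintype.card ι} with hS
  have key : ∀ m : ι → ℤ, ∑ k, m k * (s k : ℤ) = gen s - i →
      ∃ v ∈ S, ∑ k, m k * (m k + 1) = 2 * (v : ℤ) := by
    intro m hm
    have h2 : ∃ b : ℤ, ∑ k, m k * (m k + 1) = 2 * b := by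
      choose b hb using fun k => mul_succ_even (m k)
      exact ⟨∑ k, b k, by rw [Finset.mul_sum]; exact Finset.sum_congr rfl fun k _ => hb k⟩
    obtain ⟨b, hb⟩ := h2
    have hb0 : 0 ≤ b := by
      have := Finset.sum_nonneg (s := Finset.univ) fun k (_ : k ∈ Finset.univ) =>
        mul_succ_nonneg (m k)
      omega
    refine ⟨b.toNat, ?_, by rw [Int.toNat_of_nonneg hb0]; exact hb⟩
    rw [hS, Set.mem_ofPred_eq, torsion_set]
    exact ⟨m, hm, by rw [Int.toNat_of_nonneg hb0]; exact hb⟩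
  have hne : S.Nonempty := by
    obtain ⟨k0, hk0⟩ := h1
    obtain ⟨v, hv, -⟩ := key (fun k => if k = k0 then (gen s : ℤ) - i else 0) (by
      simp [ite_mul, hk0])
    exact ⟨v, hv⟩
  constructor
  · intro h
    have hmem := Nat.sInf_mem hne
    rw [hS, Set.mem_ofPred_eq, torsion_set] at hmem
    obtain ⟨m, h2, h3⟩ := hmem
    refine ⟨m, h2, ?_⟩
    rw [h3]
    have : ((sInf S : ℕ) : ℤ) ≤ N := by exact_mod_cast h
    linarith
  · rintro ⟨m, h2, h3⟩
    obtain ⟨v, hv, hv'⟩ := key m h2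
    refine (Nat.sInf_le hv).trans ?_
    have : (v : ℤ) ≤ N := by linarith
    exact_mod_cast this

theorem Rep.zero_le {s : ι → ℕ} {j : ℤ} (h : Rep s j 0) : j ≤ 0 := by
  obtain ⟨m, h1, h2⟩ := h
  rw [← h1]
  refine Finset.sum_nonpos fun k _ => ?_
  have h3 : m k * (m k + 1) ≤ 0 := by
    have h4 : m k * (m k + 1) ≤ ∑ l, m l * (m l + 1) :=
      Finset.single_le_sum (f := fun k => m k * (m k + 1))
        (fun k _ => mul_succ_nonneg (m k)) (Finset.mem_univ k)
    push_cast at h2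
    linarith
  have h4 : m k ≤ 0 := by
    by_contra h5
    have : 1 ≤ m k := by omega
    nlinarith
  exact mul_nonpos_of_nonpos_of_nonneg h4 (by positivity)

theorem torsion_gen (s : ι → ℕ) (h1 : ∃ k, s k = 1) : torsion s (gen s) = 0 := by
  have h := (torsion_le_iff s h1 (gen s) 0 (two_gen_le s)).2 ⟨0, by simp, by simp⟩
  omega

theorem torsion_pos (s : ι → ℕ) (h1 : ∃ k, s k = 1) (i : ℕ) (hi : i < gen s) :
    torsion s i ≠ 0 := by
  intro h0
  have hle : 2 * i ≤ ∑ k, s k ^ 2 := (by omega : 2 * i ≤ 2 * gen s).trans (two_gen_le s)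
  have h := (torsion_le_iff s h1 i 0 hle).1 (by omega)
  have := h.zero_le
  omega

variable {κ : Type*} [Fintype κ]

theorem gen_eq (s : ι → ℕ) (r : κ → ℕ) (hs : ∃ k, s k = 1) (hr : ∃ k, r k = 1)
    (h : ∀ i, torsion s i = torsion r i) : gen s = gen r := by
  rcases lt_trichotomy (gen s) (gen r) with hlt | heq | hgt
  · exact absurd ((h _).symm.trans (torsion_gen s hs)) (torsion_pos r hr _ hlt)
  · exact heq
  · exact absurd ((h _).trans (torsion_gen r hr)) (torsion_pos s hs _ hgt)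

theorem rep_iff (s : ι → ℕ) (r : κ → ℕ) (hs : ∃ k, s k = 1) (hr : ∃ k, r k = 1)
    (h : ∀ i, torsion s i = torsion r i) (j N : ℕ) (hj : j ≤ gen s) :
    Rep s j N ↔ Rep r j N := by
  have hg := gen_eq s r hs hr h
  obtain ⟨i, hi⟩ : ∃ i, gen s = i + j := ⟨gen s - j, by omega⟩
  have h1 : 2 * i ≤ ∑ k, s k ^ 2 := (by omega : 2 * i ≤ 2 * gen s).trans (two_gen_le s)
  have h2 : 2 * i ≤ ∑ k, r k ^ 2 := (by omega : 2 * i ≤ 2 * gen r).trans (two_gen_le r)
  have e1 : ((gen s : ℤ) - i) = j := by rw [hi]; push_cast; ring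
  have e2 : ((gen r : ℤ) - i) = j := by rw [← hg, hi]; push_cast; ring
  have a := torsion_le_iff s hs i N h1
  have b := torsion_le_iff r hr i N h2
  rw [e1] at a
  rw [e2] at b
  rw [← a, ← b, h i]

end general

/-- Indicator of a value. -/
def ind (a b : ℕ) : ℤ := if a = b then 1 else 0

theorem term0 {a : ℕ} (ha : a ≤ 5) (x : ℤ) : 2 * (x * a) ≤ 5 * (x * (x + 1)) := by
  have hx := mul_succ_nonneg x
  have h : x ≤ 0 ∨ 1 ≤ x := by omega
  interval_cases a <;> rcases h with h | h <;> push_cast <;> nlinarith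

theorem term1 {a : ℕ} (ha : a ≤ 5) (x : ℤ) :
    4 * (x * a) ≤ 9 * (x * (x + 1)) + 2 * ind a 5 := by
  have hx := mul_succ_nonneg x
  have h : x ≤ 0 ∨ 1 ≤ x := by omega
  interval_cases a <;> rcases h with h | h <;> norm_num [ind] <;> nlinarith

theorem term2 {a : ℕ} (ha : a ≤ 5) (ha4 : a ≠ 4) (x : ℤ) :
    4 * (x * a) ≤ 7 * (x * (x + 1)) + 6 * ind a 5 := by
  have hx := mul_succ_nonneg x
  have h : x ≤ 0 ∨ 1 ≤ x := by omega
  interval_cases a <;> first | exact absurd rfl ha4 | skip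
  all_goals rcases h with h | h <;> norm_num [ind] <;> nlinarith

theorem term3 {a : ℕ} (ha : a ≤ 5) (ha3 : a ≠ 3) (x : ℤ) :
    4 * (x * a) ≤ 5 * (x * (x + 1)) + 10 * ind a 5 + 6 * ind a 4 := by
  have hx := mul_succ_nonneg x
  have h : x ≤ 0 ∨ 1 ≤ x := by omega
  have h' : x ≤ 1 ∨ 2 ≤ x := by omega
  interval_cases a <;> first | exact absurd rfl ha3 | skip
  all_goals rcases h with h | h <;> rcases h' with h' | h' <;> norm_num [ind] <;> nlinarith

section counts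

variable {ι : Type*} [Fintype ι]

/-- The number of entries equal to `a`. -/
def cnt (s : ι → ℕ) (a : ℕ) : ℕ := (Finset.univ.filter fun k => s k = a).card

theorem sum_ind (s : ι → ℕ) (a : ℕ) : ∑ k, ind (s k) a = cnt s a := by
  unfold ind cnt
  simp

theorem rep_le0 {s : ι → ℕ} (h5 : ∀ k, s k ≤ 5) {j : ℤ} {N : ℕ} (h : Rep s j N) :
    2 * j ≤ 10 * N := by
  obtain ⟨m, h1, h2⟩ := h
  have h3 : ∑ k, 2 * (m k * (s k : ℤ)) ≤ ∑ k, 5 * (m k * (m k + 1)) :=
    Finset.sum_le_sum fun k _ => term0 (h5 k) (m k)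
  rw [← Finset.mul_sum, ← Finset.mul_sum, h1] at h3
  linarith

theorem rep_le1 {s : ι → ℕ} (h5 : ∀ k, s k ≤ 5) {j : ℤ} {N : ℕ} (h : Rep s j N) :
    4 * j ≤ 18 * N + 2 * cnt s 5 := by
  obtain ⟨m, h1, h2⟩ := h
  have h3 : ∑ k, 4 * (m k * (s k : ℤ)) ≤ ∑ k, (9 * (m k * (m k + 1)) + 2 * ind (s k) 5) :=
    Finset.sum_le_sum fun k _ => term1 (h5 k) (m k)
  rw [Finset.sum_add_distrib, ← Finset.mul_sum, ← Finset.mul_sum, ← Finset.mul_sum, h1,
    sum_ind] at h3
  linarith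

theorem rep_le2 {s : ι → ℕ} (h5 : ∀ k, s k ≤ 5) (h4 : ∀ k, s k ≠ 4) {j : ℤ} {N : ℕ}
    (h : Rep s j N) : 4 * j ≤ 14 * N + 6 * cnt s 5 := by
  obtain ⟨m, h1, h2⟩ := h
  have h3 : ∑ k, 4 * (m k * (s k : ℤ)) ≤ ∑ k, (7 * (m k * (m k + 1)) + 6 * ind (s k) 5) :=
    Finset.sum_le_sum fun k _ => term2 (h5 k) (h4 k) (m k)
  rw [Finset.sum_add_distrib, ← Finset.mul_sum, ← Finset.mul_sum, ← Finset.mul_sum, h1,
    sum_ind] at h3
  linarith

theorem rep_le3 {s : ι → ℕ} (h5 : ∀ k, s k ≤ 5) (h4 : ∀ k, s k ≠ 3) {j : ℤ} {N : ℕ}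
    (h : Rep s j N) : 4 * j ≤ 10 * N + 10 * cnt s 5 + 6 * cnt s 4 := by
  obtain ⟨m, h1, h2⟩ := h
  have h3 : ∑ k, 4 * (m k * (s k : ℤ)) ≤
      ∑ k, (5 * (m k * (m k + 1)) + 10 * ind (s k) 5 + 6 * ind (s k) 4) :=
    Finset.sum_le_sum fun k _ => term3 (h5 k) (h4 k) (m k)
  rw [Finset.sum_add_distrib, Finset.sum_add_distrib, ← Finset.mul_sum, ← Finset.mul_sum,
    ← Finset.mul_sum, ← Finset.mul_sum, h1, sum_ind, sum_ind] at h3
  linarith

theorem rep_single (s : ι → ℕ) (k : ι) : Rep s (s k) 1 := by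
  classical
  refine ⟨fun l => if l = k then 1 else 0, by simp [ite_mul], ?_⟩
  have : ∀ l, (if l = k then (1 : ℤ) else 0) * ((if l = k then 1 else 0) + 1)
      = if l = k then 2 else 0 := by
    intro l
    split_ifs <;> norm_num
  simp [this]

/-- Using `q` of the entries equal to `5`. -/
theorem rep_fives (s : ι → ℕ) (q : ℕ) (hq : q ≤ cnt s 5) : Rep s (5 * q) q := by
  classical
  obtain ⟨A, hA, hc⟩ := Finset.exists_subset_card_eq hq
  refine ⟨fun l => if l ∈ A then 1 else 0, ?_, ?_⟩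
  · have h1 : ∀ l, (if l ∈ A then (1 : ℤ) else 0) * (s l : ℤ) = if l ∈ A then 5 else 0 := by
      intro l
      split_ifs with h
      · have := (Finset.mem_filter.1 (hA h)).2
        rw [this]
        norm_num
      · simp
    simp only [h1]
    rw [Finset.sum_ite_mem, Finset.univ_inter, Finset.sum_const, hc]
    simp [mul_comm]
  · have h1 : ∀ l, (if l ∈ A then (1 : ℤ) else 0) * ((if l ∈ A then 1 else 0) + 1)
        = if l ∈ A then 2 else 0 := by
      intro l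
      split_ifs <;> norm_num
    simp only [h1]
    rw [Finset.sum_ite_mem, Finset.univ_inter, Finset.sum_const, hc]
    simp [mul_comm]

theorem gen_counts (s : ι → ℕ) (h5 : ∀ k, s k ≤ 5) :
    gen s = 10 * cnt s 5 + 6 * cnt s 4 + 3 * cnt s 3 + cnt s 2 := by
  have h : ∀ k, (((s k).choose 2 : ℕ) : ℤ) =
      10 * ind (s k) 5 + 6 * ind (s k) 4 + 3 * ind (s k) 3 + ind (s k) 2 := by
    intro k
    have := h5 k
    interval_cases s k <;> simp [ind, Nat.choose]
  have h2 : (gen s : ℤ) = 10 * cnt s 5 + 6 * cnt s 4 + 3 * cnt s 3 + cnt s 2 := by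
    unfold gen
    push_cast
    simp only [h]
    rw [Finset.sum_add_distrib, Finset.sum_add_distrib, Finset.sum_add_distrib,
      ← Finset.mul_sum, ← Finset.mul_sum, ← Finset.mul_sum, sum_ind, sum_ind, sum_ind, sum_ind]
  exact_mod_cast h2

theorem exists_of_cnt {s : ι → ℕ} {a : ℕ} (h : 1 ≤ cnt s a) : ∃ k, s k = a := by
  obtain ⟨k, hk⟩ := Finset.card_pos.1 h
  exact ⟨k, (Finset.mem_filter.1 hk).2⟩

theorem exists_two_of_cnt {s : ι → ℕ} {a : ℕ} (h : 2 ≤ cnt s a) :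
    ∃ k l, k ≠ l ∧ s k = a ∧ s l = a := by
  obtain ⟨k, hk, l, hl, hkl⟩ := Finset.one_lt_card.1 h
  exact ⟨k, l, hkl, (Finset.mem_filter.1 hk).2, (Finset.mem_filter.1 hl).2⟩

theorem cnt_pos {s : ι → ℕ} {a : ℕ} {k : ι} (h : s k = a) : 1 ≤ cnt s a :=
  Finset.card_pos.2 ⟨k, Finset.mem_filter.2 ⟨Finset.mem_univ _, h⟩⟩

end counts

section sigma

variable (m : ℕ)

theorem sig_le (k : Fin 5 ⊕ Fin m) : sig m k ≤ 5 := by
  rcases k with a | b
  · fin_cases a <;> simp [sig]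
  · simp [sig]

theorem sig_one : ∃ k, sig m k = 1 := ⟨Sum.inl 0, rfl⟩

theorem gen_sig : gen (sig m) = 11 + 10 * m := by
  unfold gen sig
  rw [Fintype.sum_sum_type, Fin.sum_univ_five]
  simp [Nat.choose]
  ring

theorem cnt_sig : cnt (sig m) 5 = m := by
  have h : ((cnt (sig m) 5 : ℕ) : ℤ) = m := by
    rw [← sum_ind, Fintype.sum_sum_type, Fin.sum_univ_five]
    simp [sig, ind]
  exact_mod_cast h

theorem rep_sig1 : Rep (sig m) (5 * m) m := by
  have := rep_fives (sig m) m (by rw [cnt_sig])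
  exact this

theorem rep_sig2 : Rep (sig m) (5 * m + 4) (m + 1) := by
  refine ⟨Sum.elim ![0, 0, 0, 0, 1] (fun _ => 1), ?_, ?_⟩
  · rw [Fintype.sum_sum_type, Fin.sum_univ_five]
    simp [sig]
    ring
  · rw [Fintype.sum_sum_type, Fin.sum_univ_five]
    simp
    linarith

theorem rep_sig3 : Rep (sig m) (5 * m + 7) (m + 2) := by
  refine ⟨Sum.elim ![0, 0, 0, 1, 1] (fun _ => 1), ?_, ?_⟩
  · rw [Fintype.sum_sum_type, Fin.sum_univ_five]
    simp [sig]
    ring
  · rw [Fintype.sum_sum_type, Fin.sum_univ_five]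
    simp
    linarith

/-- The torsion sequence determines the large entries. -/
theorem entries {ι : Type*} [Fintype ι] (hm : 1 ≤ m) (s : ι → ℕ) (hs : ∃ k, s k = 1)
    (h : ∀ i, torsion s i = torsion (sig m) i) :
    (∃ k, s k = 5) ∧ (∃ k, s k = 4) ∧ (∃ k, s k = 3) ∧ ∃ k l, k ≠ l ∧ s k = 2 ∧ s l = 2 := by
  have hg : gen s = 11 + 10 * m := by rw [gen_eq s (sig m) hs (sig_one m) h, gen_sig]
  have key := fun j N hj => rep_iff s (sig m) hs (sig_one m) h j N hj
  -- all entries are at most five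
  have h5 : ∀ k, s k ≤ 5 := by
    intro k
    by_contra hk
    have hk' : s k ≤ gen s := by
      have h1 : (s k).choose 2 ≤ gen s :=
        Finset.single_le_sum (f := fun k => (s k).choose 2) (fun _ _ => Nat.zero_le _)
          (Finset.mem_univ k)
      refine le_trans ?_ h1
      have h2 := two_choose (s k)
      have h3 : (6 : ℤ) ≤ s k := by exact_mod_cast (by omega : 6 ≤ s k)
      have h4 : ((s k : ℕ) : ℤ) ≤ ((s k).choose 2 : ℕ) := by nlinarith
      exact_mod_cast h4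
    have h1 := (key (s k) 1 hk').1 (rep_single s k)
    have h2 := rep_le0 (sig_le m) h1
    push_cast at h2
    have h3 : (6 : ℤ) ≤ s k := by exact_mod_cast (by omega : 6 ≤ s k)
    linarith
  -- the number of fives
  have c5 : cnt s 5 = m := by
    apply le_antisymm
    · by_contra hc
      have h1 : Rep s (5 * ((m + 1 : ℕ) : ℤ)) (m + 1) := rep_fives s (m + 1) (by omega)
      have h2 := (key (5 * (m + 1)) (m + 1) (by omega)).1 (by push_cast at h1 ⊢; exact h1)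
      have h3 := rep_le1 (sig_le m) h2
      rw [cnt_sig] at h3
      push_cast at h3
      linarith
    · have h1 := (key (5 * m) m (by omega)).2 (by push_cast; exact rep_sig1 m)
      have h2 := rep_le1 h5 h1
      push_cast at h2
      have h3 : (m : ℤ) ≤ cnt s 5 := by linarith
      exact_mod_cast h3
  have e4 : ∃ k, s k = 4 := by
    by_contra hc
    have h4 : ∀ k, s k ≠ 4 := fun k hk => hc ⟨k, hk⟩
    have h1 := (key (5 * m + 4) (m + 1) (by omega)).2 (by push_cast; exact rep_sig2 m)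
    have h2 := rep_le2 h5 h4 h1
    rw [c5] at h2
    push_cast at h2
    linarith
  have c4 : 1 ≤ cnt s 4 := by
    obtain ⟨k, hk⟩ := e4
    exact cnt_pos hk
  have hcounts := gen_counts s h5
  have e3 : ∃ k, s k = 3 := by
    by_contra hc
    have h3 : ∀ k, s k ≠ 3 := fun k hk => hc ⟨k, hk⟩
    have h1 := (key (5 * m + 7) (m + 2) (by omega)).2 (by push_cast; exact rep_sig3 m)
    have h2 := rep_le3 h5 h3 h1
    have c4' : cnt s 4 = 1 := by omega
    rw [c5, c4'] at h2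
    push_cast at h2
    linarith
  have c3 : 1 ≤ cnt s 3 := by
    obtain ⟨k, hk⟩ := e3
    exact cnt_pos hk
  have c2 : 2 ≤ cnt s 2 := by omega
  exact ⟨exists_of_cnt (by omega), e4, e3, exists_two_of_cnt c2⟩

end sigma

end Pool.Agent.H30.AS
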