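import Pool.Agent.H30.AS.Obstruct
import Pool.Agent.H30.AS.Torsion

/-!
# The lattices of non-integer slopes
-/

namespace Pool.Agent.H30.AS

open Finset

/-- The vector with entries zero and one. -/
def zv (l : ℕ) (c : ℕ → ℕ) (j : ℕ) : ℤ := if j = 0 ∨ (j ≤ l ∧ c (j - 1) = j - 1) then 1 else 0

theorem le_of_mono {c : ℕ → ℕ} (hc : StrictMono c) (k : ℕ) : k ≤ c k := hc.le_apply

/-- If `c k = k` then `c i = i` for all smaller `i`. -/
theorem eq_of_eq {c : ℕ → ℕ} (hc : StrictMono c) {k : ℕ} (h : c k = k) {i : ℕ} (hi : i ≤ k) :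
    c i = i := by
  have h1 : ∀ d, d ≤ k → c (k - d) ≤ k - d := by
    intro d
    induction d with
    | zero => intro _; simp [h]
    | succ d ih =>
      intro hd
      have h2 := ih (by omega)
      have h3 : c (k - (d + 1)) < c (k - d) := hc (by omega)
      omega
  have h4 := h1 (k - i) (by omega)
  have h5 := le_of_mono hc i
  have h6 : k - (k - i) = i := by omega
  rw [h6] at h4
  omega

theorem zv_sum (l : ℕ) (c : ℕ → ℕ) (hc : StrictMono c) (h0 : c 0 = 0) (k : ℕ) (hk : k < l) :
    ∑ j : Fin (c l + 1), zv l c j * chainVec c k j = 0 := by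
  rw [Fin.sum_univ_eq_sum_range (fun j => zv l c j * chainVec c k j) (c l + 1)]
  have hkl : c (k + 1) ≤ c l := hc.monotone (by omega)
  have hkk : c k < c (k + 1) := hc (by omega)
  by_cases h : c k = k
  · have hterm : ∀ j, zv l c j * chainVec c k j =
        (if j = k then -1 else 0) + (if j = k + 1 then 1 else 0) := by
      intro j
      unfold chainVec
      rw [h]
      by_cases hj : j = k
      · subst hj
        have hz : zv l c j = 1 := by
          unfold zv
          rw [if_pos]
          rcases Nat.eq_zero_or_pos j with h1 | h1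
          · exact Or.inl h1
          · right
            refine ⟨by omega, ?_⟩
            exact eq_of_eq hc h (by omega)
        rw [hz, if_pos rfl, if_pos rfl, if_neg (by omega)]
        ring
      · by_cases hj1 : j = k + 1
        · subst hj1
          have hz : zv l c (k + 1) = 1 := by
            unfold zv
            rw [if_pos]
            right
            refine ⟨by omega, ?_⟩
            simpa using h
          rw [hz, if_neg (by omega), if_pos ⟨by omega, by omega⟩, if_neg (by omega), if_pos rfl]
          ring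
        · rw [if_neg hj, if_neg hj, if_neg hj1]
          by_cases hr : k < j ∧ j ≤ c (k + 1)
          · rw [if_pos hr]
            have hz : zv l c j = 0 := by
              unfold zv
              rw [if_neg]
              rintro (h1 | ⟨h1, h2⟩)
              · omega
              · have h3 : c (k + 1) ≤ c (j - 1) := hc.monotone (by omega)
                omega
            rw [hz]
            ring
          · rw [if_neg hr]
            ring
    simp only [hterm]
    rw [Finset.sum_add_distrib]
    have e1 : k ∈ Finset.range (c l + 1) := by rw [Finset.mem_range]; omega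
    have e2 : k + 1 ∈ Finset.range (c l + 1) := by rw [Finset.mem_range]; omega
    simp only [Finset.sum_ite_eq', e1, e2, if_true]
    norm_num
  · have hk1 : k < c k := lt_of_le_of_ne (le_of_mono hc k) (Ne.symm h)
    refine Finset.sum_eq_zero fun j _ => ?_
    unfold chainVec
    by_cases hj : j = c k
    · have hz : zv l c j = 0 := by
        unfold zv
        rw [if_neg]
        rintro (h1 | ⟨h1, h2⟩)
        · omega
        · have h3 : c k ≤ c (j - 1) := hc.monotone (by omega)
          omega
      rw [hz]
      ring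
    · rw [if_neg hj]
      by_cases hr : c k < j ∧ j ≤ c (k + 1)
      · have hz : zv l c j = 0 := by
          unfold zv
          rw [if_neg]
          rintro (h1 | ⟨h1, h2⟩)
          · omega
          · have h3 : c (k + 1) ≤ c (j - 1) := hc.monotone (by omega)
            omega
        rw [hz]
        ring
      · rw [if_neg hr]
        ring

theorem find_block (c : ℕ → ℕ) (h0 : c 0 = 0) (l j : ℕ) (hj : 0 < j) (hjl : j ≤ c l) :
    ∃ k < l, c k < j ∧ j ≤ c (k + 1) := by
  induction l with
  | zero => omega
  | succ l ih =>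
    by_cases h : j ≤ c l
    · obtain ⟨k, h1, h2⟩ := ih h
      exact ⟨k, by omega, h2⟩
    · exact ⟨l, by omega, by omega, hjl⟩

/-- The head of the lattice of a non-integer slope. -/
def slopeHead (l : ℕ) (c : ℕ → ℕ) (hl : 1 ≤ l) (hc : StrictMono c) (h0 : c 0 = 0) :
    Head (Fin (c l + 1)) where
  R :=
    { carrier := {x | ∀ k < l, ∑ j : Fin (c l + 1), x j * chainVec c k j = 0}
      zero_mem' := by
        intro k _
        simp
      add_mem' := by
        intro a b ha hb k hk
        simp only [Pi.add_apply, add_mul, Finset.sum_add_distrib]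
        rw [ha k hk, hb k hk, add_zero]
      neg_mem' := by
        intro a ha k hk
        simp only [Pi.neg_apply, neg_mul, Finset.sum_neg_distrib]
        rw [ha k hk, neg_zero] }
  e := 0
  z := fun j => zv l c j
  zmem := fun k hk => zv_sum l c hc h0 k hk
  ze := by simp [zv]
  z01 := by
    intro j
    unfold zv
    split_ifs
    · exact Or.inr rfl
    · exact Or.inl rfl
  single := by
    intro x hx j hj
    have hx' : ∀ k < l, x j * chainVec c k j = 0 := by
      intro k hk
      have h1 := hx k hk
      rw [Finset.sum_eq_single j (fun i _ hi => by rw [hj i hi, zero_mul]) (by simp)] at h1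
      exact h1
    rcases Nat.eq_zero_or_pos (j : ℕ) with h | h
    · have h1 := hx' 0 (by omega)
      rw [chainVec, h, h0, if_pos rfl] at h1
      omega
    · have hjl : (j : ℕ) ≤ c l := by have := j.2; omega
      obtain ⟨k, hk, h1, h2⟩ := find_block c h0 l j h hjl
      have h3 := hx' k hk
      rw [chainVec, if_neg (by omega), if_pos ⟨h1, h2⟩] at h3
      omega

theorem slopeLattice_eq (l : ℕ) (c : ℕ → ℕ) (hl : 1 ≤ l) (hc : StrictMono c) (h0 : c 0 = 0)
    {t : ℕ} (s : Fin t → ℕ) : slopeLattice l c s = (slopeHead l c hl hc h0).lattice s := by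
  ext x
  constructor
  · rintro ⟨h1, h2⟩
    exact ⟨h2, h1⟩
  · rintro ⟨h1, h2⟩
    exact ⟨h2, h1⟩

/-- Part (C). -/
theorem not_graph_slope (m : ℕ) (hm : 1 ≤ m) (l : ℕ) (c : ℕ → ℕ) (t : ℕ) (s : Fin t → ℕ)
    (hl : 1 ≤ l) (h0 : c 0 = 0) (hc : StrictMono c)
    (h : ∀ i, torsion (oneCons s) i = torsion (sig m) i) (E : List (ℕ × ℕ)) :
    ¬ IsGraphLattice E (slopeLattice l c s) := by
  obtain ⟨⟨k5, h5⟩, ⟨k4, h4⟩, ⟨k3, h3⟩, k2, k2', hne, h2, h2'⟩ :=
    entries m hm (oneCons s) ⟨Sum.inl 0, rfl⟩ h
  have key : ∀ (k : Fin 1 ⊕ Fin t) (a : ℕ), a ≠ 1 → oneCons s k = a →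
      ∃ i, k = Sum.inr i ∧ s i = a := by
    intro k a ha hk
    rcases k with k | i
    · exact absurd hk.symm ha
    · exact ⟨i, rfl, hk⟩
  obtain ⟨i5, -, g5⟩ := key k5 5 (by decide) h5
  obtain ⟨i4, -, g4⟩ := key k4 4 (by decide) h4
  obtain ⟨i3, -, g3⟩ := key k3 3 (by decide) h3
  obtain ⟨i2, e2, g2⟩ := key k2 2 (by decide) h2
  obtain ⟨i2', e2', g2'⟩ := key k2' 2 (by decide) h2'
  have hne' : i2 ≠ i2' := by
    rintro rfl
    exact hne (e2.trans e2'.symm)
  rw [slopeLattice_eq l c hl hc h0]
  exact not_graph _ g2 g2' hne' g3 g4 g5 E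

end Pool.Agent.H30.AS
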