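import Pool.Agent.H30.AS.Defs

/-!
# The band move from the unknot to the link diagram `word m`
-/

namespace Pool.Agent.H30.AS

open Piece

theorem Isotopic.rfl' (w : List Piece) : Isotopic w w := Relation.EqvGen.refl w

theorem Isotopic.symm' {u v : List Piece} (h : Isotopic u v) : Isotopic v u :=
  Relation.EqvGen.symm _ _ h

theorem Isotopic.trans' {u v w : List Piece} (h : Isotopic u v) (h' : Isotopic v w) :
    Isotopic u w := Relation.EqvGen.trans _ _ _ h h'

theorem Isotopic.ctx (a b : List Piece) {u v : List Piece} (h : Isotopic u v) :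
    Isotopic (a ++ u ++ b) (a ++ v ++ b) := by
  unfold Isotopic at h
  induction h with
  | rel x y hxy =>
    obtain ⟨a', b', u', v', hm, rfl, rfl⟩ := hxy
    refine Relation.EqvGen.rel _ _ ⟨a ++ a', b' ++ b, u', v', hm, ?_, ?_⟩ <;> simp
  | refl x => exact Isotopic.rfl' _
  | symm x y _ ih => exact ih.symm'
  | trans x y z _ _ ih1 ih2 => exact ih1.trans' ih2

/-- Applying a move inside a word. -/
theorem mv (a b : List Piece) {u v : List Piece} (h : Move u v) :
    Isotopic (a ++ u ++ b) (a ++ v ++ b) :=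
  Relation.EqvGen.rel _ _ ⟨a, b, u, v, h, rfl, rfl⟩

theorem vm (a b : List Piece) {u v : List Piece} (h : Move u v) :
    Isotopic (a ++ v ++ b) (a ++ u ++ b) := (mv a b h).symm'

theorem Isotopic.app {u v u' v' : List Piece} (h : Isotopic u v) (h' : Isotopic u' v') :
    Isotopic (u ++ u') (v ++ v') := by
  have h1 : Isotopic (u ++ u') (v ++ u') := by simpa using Isotopic.ctx [] u' h
  have h2 : Isotopic (v ++ u') (v ++ v') := by simpa using Isotopic.ctx v [] h'
  exact h1.trans' h2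

/-- Negative (`n`) and positive (`p`) crossings. -/
abbrev n (i : ℕ) : Piece := .cross false i

abbrev p (i : ℕ) : Piece := .cross true i

/-- A power of a crossing moves past a cap to its left. -/
theorem rep_cap (b : Bool) (m i j : ℕ) (h : i ≤ j) :
    Isotopic (List.replicate m (.cross b (j + 2)) ++ [.cap i])
      ([.cap i] ++ List.replicate m (.cross b j)) := by
  induction m with
  | zero => exact Isotopic.rfl' _
  | succ m ih =>
    have h1 : Isotopic ([.cross b (j + 2)] ++ (List.replicate m (.cross b (j + 2)) ++ [.cap i]))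
        ([.cross b (j + 2)] ++ ([.cap i] ++ List.replicate m (.cross b j))) :=
      (Isotopic.rfl' _).app ih
    have h2 : Isotopic ([.cross b (j + 2), .cap i] ++ List.replicate m (.cross b j))
        ([.cap i, .cross b j] ++ List.replicate m (.cross b j)) := by
      refine Isotopic.app ?_ (Isotopic.rfl' _)
      exact vm [] [] (Move.far (.cap i) (.cross b j) h)
    exact h1.trans' h2

/-- A crossing on the left moves past a power of a crossing on the right. -/
theorem cross_rep (b c : Bool) (m i j : ℕ) (h : i ≤ j) :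
    Isotopic ([.cross b i] ++ List.replicate m (.cross c (j + 2)))
      (List.replicate m (.cross c (j + 2)) ++ [.cross b i]) := by
  induction m with
  | zero => exact Isotopic.rfl' _
  | succ m ih =>
    have h1 : Isotopic ([.cross b i, .cross c (j + 2)] ++ List.replicate m (.cross c (j + 2)))
        ([.cross c (j + 2), .cross b i] ++ List.replicate m (.cross c (j + 2))) := by
      refine Isotopic.app ?_ (Isotopic.rfl' _)
      exact mv [] [] (Move.far (.cross b i) (.cross c j) h)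
    have h2 : Isotopic ([.cross c (j + 2)] ++ ([.cross b i] ++ List.replicate m (.cross c (j + 2))))
        ([.cross c (j + 2)] ++ (List.replicate m (.cross c (j + 2)) ++ [.cross b i])) :=
      (Isotopic.rfl' _).app ih
    exact h1.trans' h2

/-- Conjugation of a power. -/
theorem conj_rep (m : ℕ) :
    Isotopic ([p 0] ++ List.replicate m (p 1) ++ [n 0])
      ([n 1] ++ List.replicate m (p 0) ++ [p 1]) := by
  induction m with
  | zero =>
    have h1 : Isotopic [p 0, n 0] [] := mv [] [] (Move.r2 true 0)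
    have h2 : Isotopic [n 1, p 1] [] := mv [] [] (Move.r2 false 1)
    exact h1.trans' h2.symm'
  | succ m ih =>
    -- [p0,p1] ++ R ++ [n0] ~ [p0,p1,n0] ++ [p0] ++ R ++ [n0] ~ [n1,p0,p1] ++ [n1] ++ R' ++ [p1]
    have h1 : Isotopic ([p 0, p 1] ++ (List.replicate m (p 1) ++ [n 0]))
        ([p 0, p 1, n 0] ++ ([p 0] ++ List.replicate m (p 1) ++ [n 0])) := by
      have := vm [p 0, p 1] (List.replicate m (p 1) ++ [n 0]) (Move.r2 false 0)
      simpa using this
    have h2 : Isotopic ([p 0, p 1, n 0] ++ ([p 0] ++ List.replicate m (p 1) ++ [n 0]))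
        ([n 1, p 0, p 1] ++ ([n 1] ++ List.replicate m (p 0) ++ [p 1])) := by
      refine Isotopic.app ?_ ih
      exact mv [] [] (Move.r3 true true false 0 (Or.inl rfl))
    have h3 : Isotopic ([n 1, p 0, p 1] ++ ([n 1] ++ List.replicate m (p 0) ++ [p 1]))
        ([n 1, p 0] ++ (List.replicate m (p 0) ++ [p 1])) := by
      have := mv [n 1, p 0] (List.replicate m (p 0) ++ [p 1]) (Move.r2 true 1)
      simpa using this
    have h4 := (h1.trans' h2).trans' h3
    simpa [List.replicate_succ] using h4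

/-- A power of a crossing above a cup is trivial. -/
theorem cup_rep (b : Bool) (m i : ℕ) :
    Isotopic ([.cup i] ++ List.replicate m (.cross b i)) [.cup i] := by
  induction m with
  | zero => exact Isotopic.rfl' _
  | succ m ih =>
    have h1 : Isotopic ([.cup i, .cross b i] ++ List.replicate m (.cross b i))
        ([.cup i] ++ List.replicate m (.cross b i)) := by
      refine Isotopic.app ?_ (Isotopic.rfl' _)
      exact mv [] [] (Move.r1cup b i)
    exact h1.trans' ih

/-- The lower part of the diagrams. -/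
def low : List Piece :=
  [cup 0, cup 1, n 0, cup 3, n 2, n 0, p 1, p 0, n 2, p 3, p 3, n 4]

/-- The upper part of the diagrams. -/
def upp : List Piece := [cap 1, n 0, cap 1, cap 0]

/-- The diagram of the unknot. -/
def wordU (m : ℕ) : List Piece := low ++ List.replicate m (p 3) ++ upp

/-- The diagram after the band move. -/
def wordL (m : ℕ) : List Piece := low ++ List.replicate m (p 3) ++ [cap 2, cup 2] ++ upp

/-- The part of the unknotting isotopy that does not touch the power. -/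
theorem low_iso : Isotopic (low ++ [cap 1]) [cup 0, cup 1, n 2, p 0] := by
  have s1 : Isotopic
      [cup 0, cup 1, n 0, cup 3, n 2, n 0, p 1, p 0, n 2, p 3, p 3, n 4, cap 1]
      [cup 0, cup 1, n 0, cup 3, n 2, p 1, p 0, n 1, n 2, p 3, p 3, n 4, cap 1] :=
    mv [cup 0, cup 1, n 0, cup 3, n 2] [n 2, p 3, p 3, n 4, cap 1]
      (Move.r3 false true true 0 (Or.inr rfl))
  have s3 : Isotopic
      [cup 0, cup 1, n 0, cup 3, n 2, p 1, p 0, n 1, n 2, p 3, p 3, n 4, cap 1]
      [cup 0, cup 1, n 0, cup 3, n 2, p 1, p 0, n 1, n 2, p 3, p 3, cap 1, n 2] :=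
    vm [cup 0, cup 1, n 0, cup 3, n 2, p 1, p 0, n 1, n 2, p 3, p 3] []
      (Move.far (cap 1) (n 2) (by decide))
  have s4 : Isotopic
      [cup 0, cup 1, n 0, cup 3, n 2, p 1, p 0, n 1, n 2, p 3, p 3, cap 1, n 2]
      [cup 0, cup 1, n 0, cup 3, n 2, p 1, p 0, n 1, n 2, p 3, cap 1, p 1, n 2] :=
    vm [cup 0, cup 1, n 0, cup 3, n 2, p 1, p 0, n 1, n 2, p 3] [n 2]
      (Move.far (cap 1) (p 1) (by decide))
  have s5 : Isotopic
      [cup 0, cup 1, n 0, cup 3, n 2, p 1, p 0, n 1, n 2, p 3, cap 1, p 1, n 2]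
      [cup 0, cup 1, n 0, cup 3, n 2, p 1, p 0, n 1, n 2, cap 1, p 1, p 1, n 2] :=
    vm [cup 0, cup 1, n 0, cup 3, n 2, p 1, p 0, n 1, n 2] [p 1, n 2]
      (Move.far (cap 1) (p 1) (by decide))
  have s6 : Isotopic
      [cup 0, cup 1, n 0, cup 3, n 2, p 1, p 0, n 1, n 2, cap 1, p 1, p 1, n 2]
      [cup 0, cup 1, n 0, cup 3, n 2, p 1, p 0, n 1, p 1, cap 2, p 1, p 1, n 2] :=
    mv [cup 0, cup 1, n 0, cup 3, n 2, p 1, p 0, n 1] [p 1, p 1, n 2] (Move.slideCap false 1)
  have s7 : Isotopic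
      [cup 0, cup 1, n 0, cup 3, n 2, p 1, p 0, n 1, p 1, cap 2, p 1, p 1, n 2]
      [cup 0, cup 1, n 0, cup 3, n 2, p 1, p 0, cap 2, p 1, p 1, n 2] :=
    mv [cup 0, cup 1, n 0, cup 3, n 2, p 1, p 0] [cap 2, p 1, p 1, n 2] (Move.r2 false 1)
  have s8 : Isotopic
      [cup 0, cup 1, n 0, cup 3, n 2, p 1, p 0, cap 2, p 1, p 1, n 2]
      [cup 0, cup 1, cup 3, n 0, n 2, p 1, p 0, cap 2, p 1, p 1, n 2] :=
    mv [cup 0, cup 1] [n 2, p 1, p 0, cap 2, p 1, p 1, n 2]
      (Move.far (n 0) (cup 1) (by decide))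
  have s9 : Isotopic
      [cup 0, cup 1, cup 3, n 0, n 2, p 1, p 0, cap 2, p 1, p 1, n 2]
      [cup 0, cup 1, cup 1, n 0, n 2, p 1, p 0, cap 2, p 1, p 1, n 2] :=
    mv [cup 0] [n 0, n 2, p 1, p 0, cap 2, p 1, p 1, n 2]
      (Move.far (cup 1) (cup 1) (by decide))
  have s10 : Isotopic
      [cup 0, cup 1, cup 1, n 0, n 2, p 1, p 0, cap 2, p 1, p 1, n 2]
      [cup 0, cup 1, cup 1, n 2, n 0, p 1, p 0, cap 2, p 1, p 1, n 2] :=
    mv [cup 0, cup 1, cup 1] [p 1, p 0, cap 2, p 1, p 1, n 2]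
      (Move.far (n 0) (n 0) (by decide))
  have s11 : Isotopic
      [cup 0, cup 1, cup 1, n 2, n 0, p 1, p 0, cap 2, p 1, p 1, n 2]
      [cup 0, cup 1, cup 1, n 2, p 1, p 0, n 1, cap 2, p 1, p 1, n 2] :=
    mv [cup 0, cup 1, cup 1, n 2] [cap 2, p 1, p 1, n 2]
      (Move.r3 false true true 0 (Or.inr rfl))
  have s12 : Isotopic
      [cup 0, cup 1, cup 1, n 2, p 1, p 0, n 1, cap 2, p 1, p 1, n 2]
      [cup 0, cup 1, cup 1, n 2, p 1, p 0, p 2, cap 1, p 1, p 1, n 2] :=
    vm [cup 0, cup 1, cup 1, n 2, p 1, p 0] [p 1, p 1, n 2] (Move.slideCap true 1)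
  have s13 : Isotopic
      [cup 0, cup 1, cup 1, n 2, p 1, p 0, p 2, cap 1, p 1, p 1, n 2]
      [cup 0, cup 1, cup 1, n 2, p 1, p 2, p 0, cap 1, p 1, p 1, n 2] :=
    mv [cup 0, cup 1, cup 1, n 2, p 1] [cap 1, p 1, p 1, n 2]
      (Move.far (p 0) (p 0) (by decide))
  have s14 : Isotopic
      [cup 0, cup 1, cup 1, n 2, p 1, p 2, p 0, cap 1, p 1, p 1, n 2]
      [cup 0, cup 1, cup 1, p 1, p 2, n 1, p 0, cap 1, p 1, p 1, n 2] :=
    vm [cup 0, cup 1, cup 1] [p 0, cap 1, p 1, p 1, n 2]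
      (Move.r3 true true false 1 (Or.inl rfl))
  have s15 : Isotopic
      [cup 0, cup 1, cup 1, p 1, p 2, n 1, p 0, cap 1, p 1, p 1, n 2]
      [cup 0, cup 1, cup 1, p 2, n 1, p 0, cap 1, p 1, p 1, n 2] :=
    mv [cup 0, cup 1] [p 2, n 1, p 0, cap 1, p 1, p 1, n 2] (Move.r1cup true 1)
  have s16 : Isotopic
      [cup 0, cup 1, cup 1, p 2, n 1, p 0, cap 1, p 1, p 1, n 2]
      [cup 0, cup 1, cup 3, p 2, n 1, p 0, cap 1, p 1, p 1, n 2] :=
    vm [cup 0] [p 2, n 1, p 0, cap 1, p 1, p 1, n 2] (Move.far (cup 1) (cup 1) (by decide))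
  have s17 : Isotopic
      [cup 0, cup 1, cup 3, p 2, n 1, p 0, cap 1, p 1, p 1, n 2]
      [cup 0, cup 1, cup 2, n 3, n 1, p 0, cap 1, p 1, p 1, n 2] :=
    vm [cup 0, cup 1] [n 1, p 0, cap 1, p 1, p 1, n 2] (Move.slideCup false 2)
  have s18 : Isotopic
      [cup 0, cup 1, cup 2, n 3, n 1, p 0, cap 1, p 1, p 1, n 2]
      [cup 0, cup 1, cup 2, n 1, n 3, p 0, cap 1, p 1, p 1, n 2] :=
    vm [cup 0, cup 1, cup 2] [p 0, cap 1, p 1, p 1, n 2] (Move.far (n 1) (n 1) (by decide))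
  have s19 : Isotopic
      [cup 0, cup 1, cup 2, n 1, n 3, p 0, cap 1, p 1, p 1, n 2]
      [cup 0, cup 1, cup 2, n 1, p 0, n 3, cap 1, p 1, p 1, n 2] :=
    vm [cup 0, cup 1, cup 2, n 1] [cap 1, p 1, p 1, n 2] (Move.far (p 0) (n 1) (by decide))
  have s20 : Isotopic
      [cup 0, cup 1, cup 2, n 1, p 0, n 3, cap 1, p 1, p 1, n 2]
      [cup 0, cup 1, cup 2, n 1, p 0, cap 1, n 1, p 1, p 1, n 2] :=
    vm [cup 0, cup 1, cup 2, n 1, p 0] [p 1, p 1, n 2] (Move.far (cap 1) (n 1) (by decide))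
  have s21 : Isotopic
      [cup 0, cup 1, cup 2, n 1, p 0, cap 1, n 1, p 1, p 1, n 2]
      [cup 0, cup 1, cup 2, n 1, p 0, cap 1, p 1, n 2] :=
    mv [cup 0, cup 1, cup 2, n 1, p 0, cap 1] [p 1, n 2] (Move.r2 false 1)
  have s22 : Isotopic
      [cup 0, cup 1, cup 2, n 1, p 0, cap 1, p 1, n 2]
      [cup 0, cup 1, cup 1, p 2, p 0, cap 1, p 1, n 2] :=
    vm [cup 0, cup 1] [p 0, cap 1, p 1, n 2] (Move.slideCup true 1)
  have s23 : Isotopic
      [cup 0, cup 1, cup 1, p 2, p 0, cap 1, p 1, n 2]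
      [cup 0, cup 1, cup 3, p 2, p 0, cap 1, p 1, n 2] :=
    vm [cup 0] [p 2, p 0, cap 1, p 1, n 2] (Move.far (cup 1) (cup 1) (by decide))
  have s24 : Isotopic
      [cup 0, cup 1, cup 3, p 2, p 0, cap 1, p 1, n 2]
      [cup 0, cup 1, cup 2, n 3, p 0, cap 1, p 1, n 2] :=
    vm [cup 0, cup 1] [p 0, cap 1, p 1, n 2] (Move.slideCup false 2)
  have s25 : Isotopic
      [cup 0, cup 1, cup 2, n 3, p 0, cap 1, p 1, n 2]
      [cup 0, cup 1, cup 2, p 0, n 3, cap 1, p 1, n 2] :=
    vm [cup 0, cup 1, cup 2] [cap 1, p 1, n 2] (Move.far (p 0) (n 1) (by decide))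
  have s26 : Isotopic
      [cup 0, cup 1, cup 2, p 0, n 3, cap 1, p 1, n 2]
      [cup 0, cup 1, cup 2, p 0, cap 1, n 1, p 1, n 2] :=
    vm [cup 0, cup 1, cup 2, p 0] [p 1, n 2] (Move.far (cap 1) (n 1) (by decide))
  have s27 : Isotopic
      [cup 0, cup 1, cup 2, p 0, cap 1, n 1, p 1, n 2]
      [cup 0, cup 1, cup 2, p 0, cap 1, n 2] :=
    mv [cup 0, cup 1, cup 2, p 0, cap 1] [n 2] (Move.r2 false 1)
  have s28 : Isotopic
      [cup 0, cup 1, cup 2, p 0, cap 1, n 2]
      [cup 0, cup 1, p 0, cup 2, cap 1, n 2] :=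
    vm [cup 0, cup 1] [cap 1, n 2] (Move.far (p 0) (cup 0) (by decide))
  have s29 : Isotopic
      [cup 0, cup 1, p 0, cup 2, cap 1, n 2]
      [cup 0, cup 1, p 0, n 2] :=
    mv [cup 0, cup 1, p 0] [n 2] (Move.zag 1)
  have s30 : Isotopic
      [cup 0, cup 1, p 0, n 2]
      [cup 0, cup 1, n 2, p 0] :=
    mv [cup 0, cup 1] [] (Move.far (p 0) (n 0) (by decide))
  exact s1.trans' <| s3.trans' <| s4.trans' <| s5.trans' <| s6.trans' <| s7.trans' <|
    s8.trans' <| s9.trans' <| s10.trans' <| s11.trans' <| s12.trans' <| s13.trans' <|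
    s14.trans' <| s15.trans' <| s16.trans' <| s17.trans' <| s18.trans' <| s19.trans' <|
    s20.trans' <| s21.trans' <| s22.trans' <| s23.trans' <| s24.trans' <| s25.trans' <|
    s26.trans' <| s27.trans' <| s28.trans' <| s29.trans' s30

/-- The diagram `wordU m` is a diagram of the unknot. -/
theorem wordU_iso (m : ℕ) : Isotopic (wordU m) unknot := by
  have a1 : Isotopic (low ++ ((List.replicate m (p 3) ++ [cap 1]) ++ [n 0, cap 1, cap 0]))
      (low ++ (([cap 1] ++ List.replicate m (p 1)) ++ [n 0, cap 1, cap 0])) :=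
    (Isotopic.rfl' _).app ((rep_cap true m 1 1 le_rfl).app (Isotopic.rfl' _))
  have a2 : Isotopic ((low ++ [cap 1]) ++ (List.replicate m (p 1) ++ [n 0, cap 1, cap 0]))
      ([cup 0, cup 1, n 2, p 0] ++ (List.replicate m (p 1) ++ [n 0, cap 1, cap 0])) :=
    low_iso.app (Isotopic.rfl' _)
  have a3 : Isotopic ([cup 0, cup 1, n 2] ++
        (([p 0] ++ List.replicate m (p 1) ++ [n 0]) ++ [cap 1, cap 0]))
      ([cup 0, cup 1, n 2] ++
        (([n 1] ++ List.replicate m (p 0) ++ [p 1]) ++ [cap 1, cap 0])) :=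
    (Isotopic.rfl' _).app ((conj_rep m).app (Isotopic.rfl' _))
  have a4 : Isotopic (([cup 0, cup 1, n 2, n 1] ++ List.replicate m (p 0)) ++ [p 1, cap 1, cap 0])
      (([cup 0, cup 1, n 2, n 1] ++ List.replicate m (p 0)) ++ [cap 1, cap 0]) :=
    (Isotopic.rfl' _).app (mv [] [cap 0] (Move.r1cap true 1))
  have b1 : Isotopic [cup 0, cup 1, n 2, n 1] [cup 0, cup 0] := by
    have t1 : Isotopic [cup 0, cup 1, n 2, n 1] [cup 0, cup 2, p 1, n 1] :=
      mv [cup 0] [n 1] (Move.slideCup false 1)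
    have t2 : Isotopic [cup 0, cup 2, p 1, n 1] [cup 0, cup 2] :=
      mv [cup 0, cup 2] [] (Move.r2 true 1)
    have t3 : Isotopic [cup 0, cup 2] [cup 0, cup 0] :=
      mv [] [] (Move.far (cup 0) (cup 0) le_rfl)
    exact t1.trans' (t2.trans' t3)
  have a5 : Isotopic ([cup 0, cup 1, n 2, n 1] ++ (List.replicate m (p 0) ++ [cap 1, cap 0]))
      ([cup 0, cup 0] ++ (List.replicate m (p 0) ++ [cap 1, cap 0])) :=
    b1.app (Isotopic.rfl' _)
  have a6 : Isotopic ([cup 0] ++ (([cup 0] ++ List.replicate m (p 0)) ++ [cap 1, cap 0]))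
      ([cup 0] ++ ([cup 0] ++ [cap 1, cap 0])) :=
    (Isotopic.rfl' _).app ((cup_rep true m 0).app (Isotopic.rfl' _))
  have a7 : Isotopic [cup 0, cup 0, cap 1, cap 0] [cup 0, cap 0] :=
    mv [cup 0] [cap 0] (Move.zig 0)
  have c1 : Isotopic (wordU m)
      ([cup 0, cup 1, n 2, p 0] ++ (List.replicate m (p 1) ++ [n 0, cap 1, cap 0])) := by
    refine Isotopic.trans' ?_ a2
    simpa [wordU, upp] using a1
  have c2 : Isotopic ([cup 0, cup 1, n 2, p 0] ++ (List.replicate m (p 1) ++ [n 0, cap 1, cap 0]))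
      (([cup 0, cup 1, n 2, n 1] ++ List.replicate m (p 0)) ++ [p 1, cap 1, cap 0]) := by
    simpa using a3
  have c3 : Isotopic (([cup 0, cup 1, n 2, n 1] ++ List.replicate m (p 0)) ++ [cap 1, cap 0])
      ([cup 0, cup 0] ++ (List.replicate m (p 0) ++ [cap 1, cap 0])) := by
    simpa using a5
  have c4 : Isotopic ([cup 0, cup 0] ++ (List.replicate m (p 0) ++ [cap 1, cap 0]))
      [cup 0, cup 0, cap 1, cap 0] := by
    simpa using a6
  exact c1.trans' (c2.trans' (a4.trans' (c3.trans' (c4.trans' a7))))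

/-- After the band move one has the link diagram `word m`. -/
theorem wordL_iso (m : ℕ) : Isotopic (wordL m) (word m) := by
  have t0 : Isotopic low
      [cup 0, cup 1, n 0, cup 3, n 2, n 0, p 1, n 2, p 3, p 3, n 4, p 0] := by
    have t1 : Isotopic
        [cup 0, cup 1, n 0, cup 3, n 2, n 0, p 1, p 0, n 2, p 3, p 3, n 4]
        [cup 0, cup 1, n 0, cup 3, n 2, n 0, p 1, n 2, p 0, p 3, p 3, n 4] :=
      mv [cup 0, cup 1, n 0, cup 3, n 2, n 0, p 1] [p 3, p 3, n 4]
        (Move.far (p 0) (n 0) (by decide))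
    have t2 : Isotopic
        [cup 0, cup 1, n 0, cup 3, n 2, n 0, p 1, n 2, p 0, p 3, p 3, n 4]
        [cup 0, cup 1, n 0, cup 3, n 2, n 0, p 1, n 2, p 3, p 0, p 3, n 4] :=
      mv [cup 0, cup 1, n 0, cup 3, n 2, n 0, p 1, n 2] [p 3, n 4]
        (Move.far (p 0) (p 1) (by decide))
    have t3 : Isotopic
        [cup 0, cup 1, n 0, cup 3, n 2, n 0, p 1, n 2, p 3, p 0, p 3, n 4]
        [cup 0, cup 1, n 0, cup 3, n 2, n 0, p 1, n 2, p 3, p 3, p 0, n 4] :=
      mv [cup 0, cup 1, n 0, cup 3, n 2, n 0, p 1, n 2, p 3] [n 4]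
        (Move.far (p 0) (p 1) (by decide))
    have t4 : Isotopic
        [cup 0, cup 1, n 0, cup 3, n 2, n 0, p 1, n 2, p 3, p 3, p 0, n 4]
        [cup 0, cup 1, n 0, cup 3, n 2, n 0, p 1, n 2, p 3, p 3, n 4, p 0] :=
      mv [cup 0, cup 1, n 0, cup 3, n 2, n 0, p 1, n 2, p 3, p 3] []
        (Move.far (p 0) (n 2) (by decide))
    exact t1.trans' (t2.trans' (t3.trans' t4))
  -- the upper part
  have u1 : Isotopic ([cap 2, cup 2] ++ upp) [cap 2, n 0, cap 1, cap 0] :=
    mv [cap 2] [n 0, cap 1, cap 0] (Move.zag 1)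
  have u2 : Isotopic [p 0, cap 2, n 0, cap 1, cap 0] [cap 2, cap 1, cap 0] := by
    have v1 : Isotopic [p 0, cap 2, n 0, cap 1, cap 0] [cap 2, p 0, n 0, cap 1, cap 0] :=
      mv [] [n 0, cap 1, cap 0] (Move.far (p 0) (cap 0) le_rfl)
    have v2 : Isotopic [cap 2, p 0, n 0, cap 1, cap 0] [cap 2, cap 1, cap 0] :=
      mv [cap 2] [cap 1, cap 0] (Move.r2 true 0)
    exact v1.trans' v2
  have d1 : Isotopic ((low ++ List.replicate m (p 3)) ++ ([cap 2, cup 2] ++ upp))
      ((low ++ List.replicate m (p 3)) ++ [cap 2, n 0, cap 1, cap 0]) :=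
    (Isotopic.rfl' _).app u1
  have d2 : Isotopic (low ++ (List.replicate m (p 3) ++ [cap 2, n 0, cap 1, cap 0]))
      ([cup 0, cup 1, n 0, cup 3, n 2, n 0, p 1, n 2, p 3, p 3, n 4, p 0] ++
        (List.replicate m (p 3) ++ [cap 2, n 0, cap 1, cap 0])) :=
    t0.app (Isotopic.rfl' _)
  have d3 : Isotopic ([cup 0, cup 1, n 0, cup 3, n 2, n 0, p 1, n 2, p 3, p 3, n 4] ++
        (([p 0] ++ List.replicate m (p 3)) ++ [cap 2, n 0, cap 1, cap 0]))
      ([cup 0, cup 1, n 0, cup 3, n 2, n 0, p 1, n 2, p 3, p 3, n 4] ++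
        ((List.replicate m (p 3) ++ [p 0]) ++ [cap 2, n 0, cap 1, cap 0])) :=
    (Isotopic.rfl' _).app ((cross_rep true true m 0 1 (by decide)).app (Isotopic.rfl' _))
  have d4 : Isotopic (([cup 0, cup 1, n 0, cup 3, n 2, n 0, p 1, n 2, p 3, p 3, n 4] ++
        List.replicate m (p 3)) ++ [p 0, cap 2, n 0, cap 1, cap 0])
      (([cup 0, cup 1, n 0, cup 3, n 2, n 0, p 1, n 2, p 3, p 3, n 4] ++
        List.replicate m (p 3)) ++ [cap 2, cap 1, cap 0]) :=
    (Isotopic.rfl' _).app u2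
  have e1 : Isotopic (wordL m)
      (low ++ (List.replicate m (p 3) ++ [cap 2, n 0, cap 1, cap 0])) := by
    simpa [wordL] using d1
  have e2 : Isotopic ([cup 0, cup 1, n 0, cup 3, n 2, n 0, p 1, n 2, p 3, p 3, n 4, p 0] ++
        (List.replicate m (p 3) ++ [cap 2, n 0, cap 1, cap 0]))
      (([cup 0, cup 1, n 0, cup 3, n 2, n 0, p 1, n 2, p 3, p 3, n 4] ++
        List.replicate m (p 3)) ++ [p 0, cap 2, n 0, cap 1, cap 0]) := by
    simpa using d3
  have e3 : Isotopic (([cup 0, cup 1, n 0, cup 3, n 2, n 0, p 1, n 2, p 3, p 3, n 4] ++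
        List.replicate m (p 3)) ++ [cap 2, cap 1, cap 0]) (word m) := by
    have : (([cup 0, cup 1, n 0, cup 3, n 2, n 0, p 1, n 2, p 3, p 3, n 4] ++
        List.replicate m (p 3)) ++ [cap 2, cap 1, cap 0]) = word m := rfl
    rw [this]
    exact Isotopic.rfl' _
  exact e1.trans' (d2.trans' (e2.trans' (d4.trans' e3)))

theorem strands_rep (b : Bool) (i m k : ℕ) (h : i + 2 ≤ k) (w : List Piece) :
    strands (List.replicate m (.cross b i) ++ w) k = strands w k := by
  induction m with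
  | zero => simp
  | succ m ih =>
    rw [List.replicate_succ, List.cons_append, strands, if_pos h, ih]

theorem wordU_link (m : ℕ) : IsLinkDiagram (wordU m) := by
  unfold IsLinkDiagram wordU
  have h : strands (List.replicate m (p 3) ++ upp) 6 = some 0 := by
    rw [strands_rep true 3 m 6 (by decide)]
    rfl
  have h2 : strands (low ++ List.replicate m (p 3) ++ upp) 0
      = strands (List.replicate m (p 3) ++ upp) 6 := rfl
  rw [h2, h]

theorem wordL_link (m : ℕ) : IsLinkDiagram (wordL m) := by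
  unfold IsLinkDiagram wordL
  have h : strands (List.replicate m (p 3) ++ ([cap 2, cup 2] ++ upp)) 6 = some 0 := by
    rw [strands_rep true 3 m 6 (by decide)]
    rfl
  have h2 : strands (low ++ List.replicate m (p 3) ++ [cap 2, cup 2] ++ upp) 0
      = strands (List.replicate m (p 3) ++ ([cap 2, cup 2] ++ upp)) 6 := by
    rw [List.append_assoc, List.append_assoc]
    rfl
  rw [h2, h]

theorem word_link (m : ℕ) : IsLinkDiagram (word m) := by
  unfold IsLinkDiagram word
  have h : strands (List.replicate m (.cross true 3) ++ [.cap 2, .cap 1, .cap 0]) 6 = some 0 := by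
    rw [strands_rep true 3 m 6 (by decide)]
    rfl
  rw [List.append_assoc]
  exact h

theorem word_alternating (m : ℕ) : IsAlternating (word m) := by
  intro b i h
  unfold word at h
  simp only [List.mem_append, List.mem_cons, List.mem_replicate, List.not_mem_nil, or_false,
    reduceCtorEq, false_or, Piece.cross.injEq] at h
  have h0 : ¬ Odd 0 := by decide
  have h1 : Odd 1 := by decide
  have h2 : ¬ Odd 2 := by decide
  have h3 : Odd 3 := by decide
  have h4 : ¬ Odd 4 := by decide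
  aesop

/-- Part (A): the unknot is turned into the alternating link diagram `word m` by one band
move. -/
theorem word_band (m : ℕ) : IsLinkDiagram (word m) ∧ IsAlternating (word m) ∧
    ∃ u w, BandMove u w ∧ Isotopic u unknot ∧ Isotopic w (word m) := by
  refine ⟨word_link m, word_alternating m, wordU m, wordL m,
    ⟨low ++ List.replicate m (p 3), upp, 2, rfl, ?_, wordU_link m, wordL_link m⟩,
    wordU_iso m, wordL_iso m⟩
  simp [wordL]

end Pool.Agent.H30.AS
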